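import Mathlib

/-!
# Gluing two spaces along a common open subspace
-/

set_option autoImplicit false

open Topology Set Function

namespace Pool.Agent.S1S3

section glue

variable {A B N : Type} [TopologicalSpace A] [TopologicalSpace B] [TopologicalSpace N]

/-- the relation -/
def gRel (f : N → A) (g : N → B) : A ⊕ B → A ⊕ B → Prop
  | Sum.inl a, Sum.inl a' => a = a'
  | Sum.inr b, Sum.inr b' => b = b'
  | Sum.inl a, Sum.inr b => ∃ n, a = f n ∧ b = g n
  | Sum.inr b, Sum.inl a => ∃ n, a = f n ∧ b = g n

/-- the equivalence relation -/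
def gSetoid {f : N → A} {g : N → B} (hf : Injective f) (hg : Injective g) : Setoid (A ⊕ B) where
  r := gRel f g
  iseqv :=
    { refl := by
        rintro (a | b)
        · exact rfl
        · exact rfl
      symm := by
        rintro (a | b) (a' | b') h
        · exact Eq.symm h
        · exact h
        · exact h
        · exact Eq.symm h
      trans := by
        rintro (a | b) (a' | b') (a'' | b'') h h'
        · exact Eq.trans h h'
        · simp only [gRel] at h h' ⊢
          subst h
          exact h'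
        · obtain ⟨n, rfl, hn⟩ := h
          obtain ⟨n', hn', hn2⟩ := h'
          rw [hn] at hn2
          rw [hg hn2]
          exact hn'.symm
        · simp only [gRel] at h h' ⊢
          subst h'
          exact h
        · simp only [gRel] at h h' ⊢
          subst h'
          exact h
        · obtain ⟨n, hn, rfl⟩ := h
          obtain ⟨n', hn', hn2⟩ := h'
          rw [hn] at hn'
          rw [hf hn']
          exact hn2.symm
        · simp only [gRel] at h h' ⊢
          subst h
          exact h'
        · exact Eq.trans h h' }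

variable {f : N → A} {g : N → B}

/-- the glued space -/
def GZ (hf : Injective f) (hg : Injective g) : Type := Quotient (gSetoid hf hg)

instance (hf : Injective f) (hg : Injective g) : TopologicalSpace (GZ hf hg) :=
  inferInstanceAs (TopologicalSpace (Quotient (gSetoid hf hg)))

/-- the projection -/
def gpi (hf : Injective f) (hg : Injective g) : A ⊕ B → GZ hf hg := Quotient.mk (gSetoid hf hg)

theorem gpi_eq (hf : Injective f) (hg : Injective g) (x y : A ⊕ B) :
    gpi hf hg x = gpi hf hg y ↔ gRel f g x y := by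
  unfold gpi
  exact ⟨fun h => Quotient.exact h, fun h => Quotient.sound h⟩

theorem isOpenQuotientMap_gpi (hf : IsOpenEmbedding f) (hg : IsOpenEmbedding g) :
    IsOpenQuotientMap (gpi hf.injective hg.injective) := by
  refine ⟨Quotient.mk_surjective, continuous_quot_mk, ?_⟩
  intro U hU
  change IsOpen (gpi hf.injective hg.injective ⁻¹' (gpi hf.injective hg.injective '' U))
  rw [isOpen_sum_iff]
  have hl : IsOpen ((Sum.inl : A → A ⊕ B) ⁻¹' U) := hU.preimage continuous_inl
  have hr : IsOpen ((Sum.inr : B → A ⊕ B) ⁻¹' U) := hU.preimage continuous_inr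
  constructor
  · have h : (Sum.inl : A → A ⊕ B) ⁻¹' (gpi hf.injective hg.injective ⁻¹'
        (gpi hf.injective hg.injective '' U)) =
        (Sum.inl : A → A ⊕ B) ⁻¹' U ∪ f '' (g ⁻¹' ((Sum.inr : B → A ⊕ B) ⁻¹' U)) := by
      ext a
      simp only [mem_preimage, mem_image, mem_union]
      constructor
      · rintro ⟨u | u, hu, h⟩
        · rw [gpi_eq] at h
          left
          rw [← (show u = a from h)]
          exact hu
        · rw [gpi_eq] at h
          obtain ⟨n, rfl, rfl⟩ := h
          exact Or.inr ⟨n, hu, rfl⟩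
      · rintro (h | ⟨n, hn, rfl⟩)
        · exact ⟨_, h, rfl⟩
        · exact ⟨_, hn, (gpi_eq _ _ _ _).2 ⟨n, rfl, rfl⟩⟩
    rw [h]
    exact hl.union (hf.isOpenMap _ (hr.preimage hg.continuous))
  · have h : (Sum.inr : B → A ⊕ B) ⁻¹' (gpi hf.injective hg.injective ⁻¹'
        (gpi hf.injective hg.injective '' U)) =
        (Sum.inr : B → A ⊕ B) ⁻¹' U ∪ g '' (f ⁻¹' ((Sum.inl : A → A ⊕ B) ⁻¹' U)) := by
      ext a
      simp only [mem_preimage, mem_image, mem_union]
      constructor
      · rintro ⟨u | u, hu, h⟩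
        · rw [gpi_eq] at h
          obtain ⟨n, rfl, rfl⟩ := h
          exact Or.inr ⟨n, hu, rfl⟩
        · rw [gpi_eq] at h
          left
          rw [← (show u = a from h)]
          exact hu
      · rintro (h | ⟨n, hn, rfl⟩)
        · exact ⟨_, h, rfl⟩
        · exact ⟨_, hn, (gpi_eq _ _ _ _).2 ⟨n, rfl, rfl⟩⟩
    rw [h]
    exact hr.union (hg.isOpenMap _ (hl.preimage hf.continuous))

theorem isOpenEmbedding_gl (hf : IsOpenEmbedding f) (hg : IsOpenEmbedding g) :
    IsOpenEmbedding fun a : A => gpi hf.injective hg.injective (Sum.inl a) := by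
  apply IsOpenEmbedding.of_continuous_injective_isOpenMap
  · exact (isOpenQuotientMap_gpi hf hg).continuous.comp continuous_inl
  · intro a a' h
    exact (gpi_eq _ _ _ _).1 h
  · exact (isOpenQuotientMap_gpi hf hg).isOpenMap.comp isOpenMap_inl

theorem isOpenEmbedding_gr (hf : IsOpenEmbedding f) (hg : IsOpenEmbedding g) :
    IsOpenEmbedding fun b : B => gpi hf.injective hg.injective (Sum.inr b) := by
  apply IsOpenEmbedding.of_continuous_injective_isOpenMap
  · exact (isOpenQuotientMap_gpi hf hg).continuous.comp continuous_inr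
  · intro a a' h
    exact (gpi_eq _ _ _ _).1 h
  · exact (isOpenQuotientMap_gpi hf hg).isOpenMap.comp isOpenMap_inr

theorem t2Space_glue [T2Space A] [T2Space B] (hf : IsOpenEmbedding f) (hg : IsOpenEmbedding g)
    (h : IsClosed (range fun n => (f n, g n))) : T2Space (GZ hf.injective hg.injective) := by
  rw [t2Space_iff_of_isOpenQuotientMap (isOpenQuotientMap_gpi hf hg)]
  have h1 : {q : (A ⊕ B) × (A ⊕ B) | gpi hf.injective hg.injective q.1 =
      gpi hf.injective hg.injective q.2} = {q | gRel f g q.1 q.2} := by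
    ext q
    exact gpi_eq _ _ _ _
  rw [h1, ← isOpen_compl_iff]
  rw [isOpen_iff_mem_nhds]
  rintro ⟨x, y⟩ hxy
  have hswap : IsClosed (range fun n => (g n, f n)) := by
    have : (range fun n => (g n, f n)) = Prod.swap ⁻¹' (range fun n => (f n, g n)) := by
      ext q
      simp only [mem_range, mem_preimage, Prod.ext_iff, Prod.fst_swap, Prod.snd_swap]
      constructor
      · rintro ⟨n, h1, h2⟩
        exact ⟨n, h2, h1⟩
      · rintro ⟨n, h1, h2⟩
        exact ⟨n, h2, h1⟩
    rw [this]
    exact h.preimage continuous_swap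
  rcases x with a | b <;> rcases y with a' | b'
  · have ho : IsOpen {q : A × A | q.1 ≠ q.2} := isOpen_ne_fun continuous_fst continuous_snd
    have := ((IsOpenEmbedding.inl (X := A) (Y := B)).prodMap
      (IsOpenEmbedding.inl (X := A) (Y := B))).isOpenMap _ ho
    refine Filter.mem_of_superset (this.mem_nhds ⟨(a, a'), hxy, rfl⟩) ?_
    rintro _ ⟨⟨c, c'⟩, hc, rfl⟩
    exact hc
  · have ho : IsOpen {q : A × B | q ∉ range fun n => (f n, g n)} := h.isOpen_compl
    have := ((IsOpenEmbedding.inl (X := A) (Y := B)).prodMap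
      (IsOpenEmbedding.inr (X := A) (Y := B))).isOpenMap _ ho
    refine Filter.mem_of_superset (this.mem_nhds ⟨(a, b'), ?_, rfl⟩) ?_
    · rintro ⟨n, hn⟩
      rw [Prod.ext_iff] at hn
      exact hxy ⟨n, hn.1.symm, hn.2.symm⟩
    · rintro _ ⟨⟨c, c'⟩, hc, rfl⟩ ⟨n, hn⟩
      exact hc ⟨n, Prod.ext hn.1.symm hn.2.symm⟩
  · have ho : IsOpen {q : B × A | q ∉ range fun n => (g n, f n)} := hswap.isOpen_compl
    have := ((IsOpenEmbedding.inr (X := A) (Y := B)).prodMap
      (IsOpenEmbedding.inl (X := A) (Y := B))).isOpenMap _ ho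
    refine Filter.mem_of_superset (this.mem_nhds ⟨(b, a'), ?_, rfl⟩) ?_
    · rintro ⟨n, hn⟩
      rw [Prod.ext_iff] at hn
      exact hxy ⟨n, hn.2.symm, hn.1.symm⟩
    · rintro _ ⟨⟨c, c'⟩, hc, rfl⟩ ⟨n, hn⟩
      exact hc ⟨n, Prod.ext hn.2.symm hn.1.symm⟩
  · have ho : IsOpen {q : B × B | q.1 ≠ q.2} := isOpen_ne_fun continuous_fst continuous_snd
    have := ((IsOpenEmbedding.inr (X := A) (Y := B)).prodMap
      (IsOpenEmbedding.inr (X := A) (Y := B))).isOpenMap _ ho
    refine Filter.mem_of_superset (this.mem_nhds ⟨(b, b'), hxy, rfl⟩) ?_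
    rintro _ ⟨⟨c, c'⟩, hc, rfl⟩
    exact hc

end glue

end Pool.Agent.S1S3
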