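import Pool.Agent.Helper58_S1S3.Tube4
import Pool.Agent.Helper83_S1S3.Stmts

/-!
# Module SMOOTH
-/

set_option autoImplicit false
set_option linter.unusedSectionVars false

open scoped Manifold ContDiff Topology
open Set Metric Module Filter TopologicalSpace

noncomputable section

namespace Pool.Agent.S1S3

section general

variable {E : Type} [NormedAddCommGroup E] [NormedSpace ℝ E] {H : Type} [TopologicalSpace H]
  {I : ModelWithCorners ℝ E H} {n : ℕ∞ω}
variable {S Z : Type} [TopologicalSpace S] [TopologicalSpace Z] [ChartedSpace H S]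

/-- a smooth map between subsets of the model space -/
theorem contDiffOn_of_contMDiffOn_model {f : H → H} {s : Set H} (h : ContMDiffOn I I n f s) :
    ContDiffOn ℝ n (I ∘ f ∘ I.symm) (I.symm ⁻¹' s ∩ range I) := by
  rw [contMDiffOn_iff] at h
  by_cases hs : s.Nonempty
  · obtain ⟨x, hx⟩ := hs
    have h1 := h.2 x x
    simp only [extChartAt, chartAt_self_eq, mfld_simps] at h1
    rw [inter_comm]
    exact h1
  · rw [not_nonempty_iff_eq_empty] at hs
    rw [hs]
    simp only [preimage_empty, empty_inter]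
    exact contDiffOn_empty

variable {ι : Type} (g : ι → OpenPartialHomeomorph S Z) (idx : Z → ι)
  (hidx : ∀ z, z ∈ (g (idx z)).target)

/-- the charted space structure glued from partial homeomorphisms -/
@[reducible] def gluedCS : ChartedSpace H Z where
  atlas := {e | ∃ i, ∃ c ∈ atlas H S, e = (g i).symm ≫ₕ c}
  chartAt z := (g (idx z)).symm ≫ₕ chartAt H ((g (idx z)).symm z)
  mem_chart_source z := by
    rw [OpenPartialHomeomorph.trans_source]
    exact ⟨hidx z, mem_chart_source _ _⟩
  chart_mem_atlas z := ⟨_, _, chart_mem_atlas _ _, rfl⟩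

variable [IsManifold I n S]

theorem gluedCS_isManifold
    (htr : ∀ i j, ContMDiffOn I I n (g i ≫ₕ (g j).symm) (g i ≫ₕ (g j).symm).source) :
    @IsManifold ℝ _ E _ _ H _ I n Z _ (gluedCS g idx hidx) := by
  let _ : ChartedSpace H Z := gluedCS g idx hidx
  apply isManifold_of_contDiffOn
  rintro e e' ⟨i, c, hc, rfl⟩ ⟨j, c', hc', rfl⟩
  apply contDiffOn_of_contMDiffOn_model
  have h1 : ContMDiffOn I I n c.symm c.target :=
    contMDiffOn_symm_of_mem_maximalAtlas (IsManifold.subset_maximalAtlas hc)
  have h2 : ContMDiffOn I I n c' c'.source :=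
    contMDiffOn_of_mem_maximalAtlas (IsManifold.subset_maximalAtlas hc')
  have h3 := htr i j
  have h4 : ContMDiffOn I I n (c' ∘ (g i ≫ₕ (g j).symm) ∘ c.symm)
      (((g i).symm ≫ₕ c).symm ≫ₕ (g j).symm ≫ₕ c').source := by
    apply h2.comp
    · apply h3.comp (h1.mono _)
      · intro x hx
        simp only [mfld_simps] at hx ⊢
        exact ⟨hx.1.2, hx.2.1⟩
      · intro x hx
        simp only [mfld_simps] at hx ⊢
        exact hx.1.1
    · intro x hx
      simp only [mfld_simps] at hx ⊢
      exact hx.2.2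
  exact h4

theorem gluedCS_mem (i : ι) (c : OpenPartialHomeomorph S H) (hc : c ∈ atlas H S) :
    (g i).symm ≫ₕ c ∈ (gluedCS (H := H) g idx hidx).atlas := ⟨i, c, hc, rfl⟩

theorem contMDiffOn_glued
    (htr : ∀ i j, ContMDiffOn I I n (g i ≫ₕ (g j).symm) (g i ≫ₕ (g j).symm).source) (i : ι) :
    letI : ChartedSpace H Z := gluedCS g idx hidx
    ContMDiffOn I I n (g i) (g i).source := by
  let _ : ChartedSpace H Z := gluedCS g idx hidx
  have hm : IsManifold I n Z := gluedCS_isManifold g idx hidx htr
  intro s hs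
  apply ContMDiffAt.contMDiffWithinAt
  set c := chartAt H s with hc
  have he : (g i).symm ≫ₕ c ∈ IsManifold.maximalAtlas I n Z :=
    IsManifold.subset_maximalAtlas (gluedCS_mem g idx hidx i c (chart_mem_atlas H s))
  have h1 : ContMDiffAt I I n ((g i).symm ≫ₕ c).symm (c s) := by
    apply (contMDiffOn_symm_of_mem_maximalAtlas he).contMDiffAt
    apply ((g i).symm ≫ₕ c).open_target.mem_nhds
    simp only [mfld_simps]
    refine ⟨(c.map_source (mem_chart_source H s)), ?_⟩
    rw [c.left_inv (mem_chart_source H s)]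
    exact hs
  have h2 : ContMDiffAt I I n c s :=
    contMDiffAt_of_mem_maximalAtlas (IsManifold.subset_maximalAtlas (chart_mem_atlas H s))
      (mem_chart_source H s)
  apply (h1.comp s h2).congr_of_eventuallyEq
  filter_upwards [c.open_source.mem_nhds (mem_chart_source H s)] with y hy
  simp only [Function.comp, mfld_simps]
  rw [c.left_inv hy]

theorem contMDiffOn_glued_symm
    (htr : ∀ i j, ContMDiffOn I I n (g i ≫ₕ (g j).symm) (g i ≫ₕ (g j).symm).source) (i : ι) :
    letI : ChartedSpace H Z := gluedCS g idx hidx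
    ContMDiffOn I I n (g i).symm (g i).target := by
  let _ : ChartedSpace H Z := gluedCS g idx hidx
  have hm : IsManifold I n Z := gluedCS_isManifold g idx hidx htr
  intro z hz
  apply ContMDiffAt.contMDiffWithinAt
  set c := chartAt H ((g i).symm z) with hc
  have he : (g i).symm ≫ₕ c ∈ IsManifold.maximalAtlas I n Z :=
    IsManifold.subset_maximalAtlas (gluedCS_mem g idx hidx i c (chart_mem_atlas H _))
  have hzs : z ∈ ((g i).symm ≫ₕ c).source := by
    rw [OpenPartialHomeomorph.trans_source]
    exact ⟨hz, mem_chart_source _ _⟩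
  have h1 : ContMDiffAt I I n ((g i).symm ≫ₕ c) z :=
    contMDiffAt_of_mem_maximalAtlas he hzs
  have h2 : ContMDiffAt I I n c.symm (((g i).symm ≫ₕ c) z) := by
    apply (contMDiffOn_symm_of_mem_maximalAtlas
      (IsManifold.subset_maximalAtlas (chart_mem_atlas H _))).contMDiffAt
    apply c.open_target.mem_nhds
    exact c.map_source (mem_chart_source H _)
  apply (h2.comp z h1).congr_of_eventuallyEq
  filter_upwards [((g i).symm ≫ₕ c).open_source.mem_nhds hzs] with y hy
  rw [OpenPartialHomeomorph.trans_source] at hy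
  simp only [Function.comp, mfld_simps]
  rw [c.left_inv hy.2]

end general

section opens

variable {E : Type*} [NormedAddCommGroup E] [NormedSpace ℝ E] {H : Type*} [TopologicalSpace H]
  {I : ModelWithCorners ℝ E H} {n : ℕ∞ω}
variable {E' : Type*} [NormedAddCommGroup E'] [NormedSpace ℝ E'] {H' : Type*} [TopologicalSpace H']
  {I' : ModelWithCorners ℝ E' H'}
variable {M S : Type*} [TopologicalSpace M] [TopologicalSpace S] [ChartedSpace H M]
  [ChartedSpace H' S]

/-- a map into an open submanifold is smooth if it is smooth into the manifold -/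
theorem contMDiffAt_opens {U : Opens S} {f : M → U} {x : M}
    (h : ContMDiffAt I I' n (fun y => (f y : S)) x) : ContMDiffAt I I' n f x := by
  rw [contMDiffAt_iff_target] at h ⊢
  exact ⟨Topology.IsInducing.subtypeVal.continuousAt_iff.2 h.1, h.2⟩

end opens

variable {m : ℕ}

attribute [local instance] factEu

theorem contMDiffOn_tr {S : Type} {H : Type} [TopologicalSpace H] [TopologicalSpace S]
    [ChartedSpace H S] {E : Type} [NormedAddCommGroup E] [NormedSpace ℝ E]
    {I : ModelWithCorners ℝ E H} {n : ℕ∞ω} {e : OpenPartialHomeomorph S S} {f : S → S} {s : Set S}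
    (he : ContMDiffOn I I n f s) (hs : e.source ⊆ s) (h : ∀ x ∈ e.source, e x = f x) :
    ContMDiffOn I I n e e.source :=
  (he.mono hs).congr h

section pieces

variable {Z : Type} [TopologicalSpace Z] (D : Glued m Z)

theorem nonempty_piece (p : ℕ) (hp : p = 2 ∨ p = 3) : Nonempty (Piece p m) := by
  refine ⟨neckMap p m hp ⟨(1, (1 / 4 : ℝ) • EuclideanSpace.single 0 1), ?_, ?_⟩⟩
  · simp only [norm_smul]
    norm_num
  · simp only [norm_smul]
    norm_num

/-- the inverse of an open embedding of a piece -/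
def gP (p : ℕ) (hp : p = 2 ∨ p = 3) {j : Piece p m → Z} (hj : Topology.IsOpenEmbedding j) :
    OpenPartialHomeomorph (Circle × Sn (m + 2)) Z :=
  ((pieceO p m).openPartialHomeomorphSubtypeCoe (nonempty_piece p hp)).symm ≫ₕ
    (haveI := nonempty_piece (m := m) p hp; hj.toOpenPartialHomeomorph j)

theorem gP_source (p : ℕ) (hp : p = 2 ∨ p = 3) {j : Piece p m → Z}
    (hj : Topology.IsOpenEmbedding j) : (gP p hp hj).source = pieceSet p m := by
  unfold gP
  simp only [mfld_simps]
  rfl

theorem gP_target (p : ℕ) (hp : p = 2 ∨ p = 3) {j : Piece p m → Z}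
    (hj : Topology.IsOpenEmbedding j) : (gP p hp hj).target = range j := by
  unfold gP
  simp only [mfld_simps]

theorem gP_apply (p : ℕ) (hp : p = 2 ∨ p = 3) {j : Piece p m → Z}
    (hj : Topology.IsOpenEmbedding j) (a : Piece p m) : gP p hp hj a.1 = j a := by
  unfold gP
  simp only [mfld_simps]
  congr 1
  exact ((pieceO p m).openPartialHomeomorphSubtypeCoe (nonempty_piece p hp)).left_inv
    (mem_univ a)

theorem gP_symm_apply (p : ℕ) (hp : p = 2 ∨ p = 3) {j : Piece p m → Z}
    (hj : Topology.IsOpenEmbedding j) (a : Piece p m) : (gP p hp hj).symm (j a) = a.1 := by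
  rw [← gP_apply p hp hj a]
  apply (gP p hp hj).left_inv
  rw [gP_source]
  exact a.2

/-- the two partial homeomorphisms -/
def gB (b : Bool) : OpenPartialHomeomorph (Circle × Sn (m + 2)) Z :=
  if b then gP 2 (Or.inl rfl) D.emb₂ else gP 3 (Or.inr rfl) D.emb₃

theorem gB_true : gB D true = gP 2 (Or.inl rfl) D.emb₂ := rfl

theorem gB_false : gB D false = gP 3 (Or.inr rfl) D.emb₃ := rfl

open Classical in
/-- the index -/
def gIdx (z : Z) : Bool := if z ∈ range D.j₂ then true else false

theorem mem_gIdx (z : Z) : z ∈ (gB D (gIdx D z)).target := by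
  unfold gIdx
  split_ifs with h
  · rw [gB_true, gP_target]
    exact h
  · rw [gB_false, gP_target]
    have hz : z ∈ range D.j₂ ∪ range D.j₃ := D.cover ▸ mem_univ z
    exact hz.resolve_left h

theorem tr_self (b : Bool) : ContMDiffOn ((𝓡 1).prod (𝓡 (m + 2))) ((𝓡 1).prod (𝓡 (m + 2))) ∞
    (gB D b ≫ₕ (gB D b).symm) (gB D b ≫ₕ (gB D b).symm).source := by
  refine contMDiffOn_tr contMDiffOn_id (s := univ) (subset_univ _) fun x hx => ?_
  rw [OpenPartialHomeomorph.trans_source] at hx
  exact (gB D b).left_inv hx.1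

theorem tr_23 : ContMDiffOn ((𝓡 1).prod (𝓡 (m + 2))) ((𝓡 1).prod (𝓡 (m + 2))) ∞
    (gB D true ≫ₕ (gB D false).symm) (gB D true ≫ₕ (gB D false).symm).source := by
  set T := (tubeP 2 (Or.inl rfl) m).symm ≫ₕ twP m ≫ₕ tubeP 3 (Or.inr rfl) m with hT
  have hTs : ContMDiffOn ((𝓡 1).prod (𝓡 (m + 2))) ((𝓡 1).prod (𝓡 (m + 2))) ∞ T T.source := by
    have h1 := contMDiffOn_tubeP_symm (r := ∞) 2 (Or.inl rfl) m
    have h2 := contMDiffOn_twP (r := ∞) m
    have h3 := contMDiffOn_tubeP (r := ∞) 3 (Or.inr rfl) m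
    have h4 : ContMDiffOn ((𝓡 1).prod (𝓡 (m + 2))) ((𝓡 1).prod (𝓡 (m + 2))) ∞
        (tubeP 3 (Or.inr rfl) m ∘ twP m ∘ (tubeP 2 (Or.inl rfl) m).symm) T.source := by
      apply h3.comp
      · apply h2.comp (h1.mono _)
        · intro x hx
          rw [hT] at hx
          simp only [mfld_simps] at hx ⊢
          exact hx.2.1
        · intro x hx
          rw [hT] at hx
          simp only [mfld_simps] at hx ⊢
          exact hx.1
      · intro x hx
        rw [hT] at hx
        simp only [mfld_simps] at hx ⊢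
        exact hx.2.2
    exact h4
  have key : ∀ x ∈ (gB D true ≫ₕ (gB D false).symm).source,
      x ∈ T.source ∧ (gB D true ≫ₕ (gB D false).symm) x = T x := by
    intro x hx
    rw [OpenPartialHomeomorph.trans_source, OpenPartialHomeomorph.symm_source, gB_true, gB_false,
      gP_source, gP_target] at hx
    obtain ⟨hx1, b, hb⟩ := hx
    have h1 := gP_apply 2 (Or.inl rfl) D.emb₂ ⟨x, hx1⟩
    rw [h1] at hb
    obtain ⟨q, hq1, hq2⟩ := (D.glue _ _).1 hb.symm
    have hxq : x = tubeP 2 (Or.inl rfl) m q.1 := by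
      rw [← coe_neckMap]
      exact congrArg Subtype.val hq1
    have hbq : (b : Circle × Sn (m + 2)) = tubeP 3 (Or.inr rfl) m (twP m q.1) := by
      rw [hq2]
      exact coe_neckMap 3 m (Or.inr rfl) (twN m q)
    have hs : (tubeP 2 (Or.inl rfl) m).symm x = q.1 := by
      rw [hxq]
      exact (tubeP 2 (Or.inl rfl) m).left_inv q.2.2
    constructor
    · rw [hT]
      simp only [mfld_simps]
      rw [hs]
      refine ⟨?_, q.2, ?_⟩
      · rw [hxq]
        exact (tubeP 2 (Or.inl rfl) m).map_source q.2.2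
      · exact (twN m q).2.2
    · rw [OpenPartialHomeomorph.coe_trans, Function.comp, gB_true, gB_false, h1, ← hb,
        gP_symm_apply, hbq, hT]
      simp only [mfld_simps]
      rw [hs]
  exact contMDiffOn_tr hTs (fun x hx => (key x hx).1) (fun x hx => (key x hx).2)

theorem tr_32 : ContMDiffOn ((𝓡 1).prod (𝓡 (m + 2))) ((𝓡 1).prod (𝓡 (m + 2))) ∞
    (gB D false ≫ₕ (gB D true).symm) (gB D false ≫ₕ (gB D true).symm).source := by
  set T := (tubeP 3 (Or.inr rfl) m).symm ≫ₕ (twP m).symm ≫ₕ tubeP 2 (Or.inl rfl) m with hT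
  have hTs : ContMDiffOn ((𝓡 1).prod (𝓡 (m + 2))) ((𝓡 1).prod (𝓡 (m + 2))) ∞ T T.source := by
    have h1 := contMDiffOn_tubeP_symm (r := ∞) 3 (Or.inr rfl) m
    have h2 := contMDiffOn_twP_symm (r := ∞) m
    have h3 := contMDiffOn_tubeP (r := ∞) 2 (Or.inl rfl) m
    have h4 : ContMDiffOn ((𝓡 1).prod (𝓡 (m + 2))) ((𝓡 1).prod (𝓡 (m + 2))) ∞
        (tubeP 2 (Or.inl rfl) m ∘ (twP m).symm ∘ (tubeP 3 (Or.inr rfl) m).symm) T.source := by
      apply h3.comp
      · apply h2.comp (h1.mono _)
        · intro x hx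
          rw [hT] at hx
          simp only [mfld_simps] at hx ⊢
          exact hx.2.1
        · intro x hx
          rw [hT] at hx
          simp only [mfld_simps] at hx ⊢
          exact hx.1
      · intro x hx
        rw [hT] at hx
        simp only [mfld_simps] at hx ⊢
        exact hx.2.2
    exact h4
  have key : ∀ x ∈ (gB D false ≫ₕ (gB D true).symm).source,
      x ∈ T.source ∧ (gB D false ≫ₕ (gB D true).symm) x = T x := by
    intro x hx
    rw [OpenPartialHomeomorph.trans_source, OpenPartialHomeomorph.symm_source, gB_true, gB_false,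
      gP_source, gP_target] at hx
    obtain ⟨hx1, a, ha⟩ := hx
    have h1 := gP_apply 3 (Or.inr rfl) D.emb₃ ⟨x, hx1⟩
    rw [h1] at ha
    obtain ⟨q, hq1, hq2⟩ := (D.glue _ _).1 ha
    have haq : (a : Circle × Sn (m + 2)) = tubeP 2 (Or.inl rfl) m q.1 := by
      rw [← coe_neckMap]
      exact congrArg Subtype.val hq1
    have hxq : x = tubeP 3 (Or.inr rfl) m (twP m q.1) := by
      have h2 : x = (neckMap 3 m (Or.inr rfl) (twN m q) : Piece 3 m).1 :=
        congrArg Subtype.val hq2
      rw [h2]
      exact coe_neckMap 3 m (Or.inr rfl) (twN m q)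
    have hs : (tubeP 3 (Or.inr rfl) m).symm x = twP m q.1 := by
      rw [hxq]
      exact (tubeP 3 (Or.inr rfl) m).left_inv (twN m q).2.2
    have hs2 : (twP m).symm (twP m q.1) = q.1 := (twP m).left_inv q.2
    constructor
    · rw [hT]
      simp only [mfld_simps]
      rw [hs, hs2]
      refine ⟨?_, ?_, ?_⟩
      · rw [hxq]
        exact (tubeP 3 (Or.inr rfl) m).map_source (twN m q).2.2
      · exact (twP m).map_source q.2
      · exact q.2.2
    · rw [OpenPartialHomeomorph.coe_trans, Function.comp, gB_true, gB_false, h1, ← ha,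
        gP_symm_apply, haq, hT]
      simp only [mfld_simps]
      rw [hs, hs2]
  exact contMDiffOn_tr hTs (fun x hx => (key x hx).1) (fun x hx => (key x hx).2)

theorem tr_all (b c : Bool) : ContMDiffOn ((𝓡 1).prod (𝓡 (m + 2))) ((𝓡 1).prod (𝓡 (m + 2))) ∞
    (gB D b ≫ₕ (gB D c).symm) (gB D b ≫ₕ (gB D c).symm).source := by
  cases b <;> cases c
  · exact tr_self D false
  · exact tr_32 D
  · exact tr_23 D
  · exact tr_self D true

/-- an open embedding of a piece which is smooth both ways is a local diffeomorphism -/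
theorem isLocalDiffeomorph_of [ChartedSpace (ModelProd (Eu 1) (Eu (m + 2))) Z] (p : ℕ)
    (hp : p = 2 ∨ p = 3) {j : Piece p m → Z} (hj : Topology.IsOpenEmbedding j)
    (h1 : ContMDiffOn ((𝓡 1).prod (𝓡 (m + 2))) ((𝓡 1).prod (𝓡 (m + 2))) ∞ (gP p hp hj)
      (gP p hp hj).source)
    (h2 : ContMDiffOn ((𝓡 1).prod (𝓡 (m + 2))) ((𝓡 1).prod (𝓡 (m + 2))) ∞ (gP p hp hj).symm
      (gP p hp hj).target) :
    IsLocalDiffeomorph ((𝓡 1).prod (𝓡 (m + 2))) ((𝓡 1).prod (𝓡 (m + 2))) ∞ j := by
  have hne := nonempty_piece (m := m) p hp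
  let e := hj.toOpenPartialHomeomorph j
  have he : ∀ a, e a = j a := fun _ => rfl
  let Φ : PartialDiffeomorph ((𝓡 1).prod (𝓡 (m + 2))) ((𝓡 1).prod (𝓡 (m + 2))) (Piece p m) Z ∞ :=
    { toPartialEquiv := e.toPartialEquiv
      open_source := e.open_source
      open_target := e.open_target
      contMDiffOn_toFun := by
        intro a _
        have h3 : ContMDiffAt ((𝓡 1).prod (𝓡 (m + 2))) ((𝓡 1).prod (𝓡 (m + 2))) ∞
            (fun a : Piece p m => gP p hp hj a.1) a := by
          have h4 : ContMDiffAt ((𝓡 1).prod (𝓡 (m + 2))) ((𝓡 1).prod (𝓡 (m + 2))) ∞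
              (gP p hp hj) a.1 := by
            apply h1.contMDiffAt
            apply (gP p hp hj).open_source.mem_nhds
            rw [gP_source]
            exact a.2
          exact h4.comp a contMDiff_subtype_val.contMDiffAt
        apply ContMDiffAt.contMDiffWithinAt
        apply h3.congr_of_eventuallyEq
        filter_upwards with b
        exact (gP_apply p hp hj b).symm
      contMDiffOn_invFun := by
        intro z hz
        have hz' : z ∈ range j := by
          have : e.target = range j := by simp [e]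
          exact this ▸ hz
        apply ContMDiffAt.contMDiffWithinAt
        apply contMDiffAt_opens
        have h4 : ContMDiffAt ((𝓡 1).prod (𝓡 (m + 2))) ((𝓡 1).prod (𝓡 (m + 2))) ∞
            (gP p hp hj).symm z := by
          apply h2.contMDiffAt
          apply (gP p hp hj).open_target.mem_nhds
          rw [gP_target]
          exact hz'
        apply h4.congr_of_eventuallyEq
        filter_upwards [hj.isOpen_range.mem_nhds hz'] with y hy
        obtain ⟨a, rfl⟩ := hy
        rw [gP_symm_apply]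
        have h5 : e.symm (j a) = a := e.left_inv (mem_univ a)
        exact congrArg Subtype.val h5 }
  intro a
  exact ⟨Φ, mem_univ a, fun b _ => rfl⟩

end pieces

theorem smooth : SmoothStatement := by
  intro m Z _ D
  let cs : ChartedSpace (ModelProd (Eu 1) (Eu (m + 2))) Z :=
    gluedCS (gB D) (gIdx D) (mem_gIdx D)
  refine ⟨cs, ?_, ?_, ?_⟩
  · exact gluedCS_isManifold (gB D) (gIdx D) (mem_gIdx D) (tr_all D)
  · exact isLocalDiffeomorph_of 2 (Or.inl rfl) D.emb₂
      (contMDiffOn_glued (gB D) (gIdx D) (mem_gIdx D) (tr_all D) true)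
      (contMDiffOn_glued_symm (gB D) (gIdx D) (mem_gIdx D) (tr_all D) true)
  · exact isLocalDiffeomorph_of 3 (Or.inr rfl) D.emb₃
      (contMDiffOn_glued (gB D) (gIdx D) (mem_gIdx D) (tr_all D) false)
      (contMDiffOn_glued_symm (gB D) (gIdx D) (mem_gIdx D) (tr_all D) false)

end Pool.Agent.S1S3
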