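import Pool.Agent.Helper58_S1S3.Tube4
import Pool.Agent.Helper58_S1S3.Glue
import Pool.Agent.Helper83_S1S3.Stmts

/-!
# Module TOP
-/

set_option autoImplicit false
set_option linter.unusedSectionVars false

open scoped Manifold ContDiff Topology
open Set Metric Module Filter

noncomputable section

namespace Pool.Agent.S1S3

variable {k m : ℕ}

attribute [local instance] factEu

/-! ### connectedness of the pieces -/

theorem isPathConnected_sphere_diff {n : ℕ} (hn : 2 ≤ n) {F : Set (Sn n)} (hF : F.Countable)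
    (v : Sn n) (hv : v ∈ F) : IsPathConnected Fᶜ := by
  set e := stereographic' n v with he
  have hs : e.source = {v}ᶜ := stereographic'_source v
  have ht : e.target = univ := stereographic'_target v
  have h1 : IsPathConnected ((e '' (F ∩ e.source))ᶜ : Set (Eu n)) := by
    apply ((hF.mono inter_subset_left).image e).isPathConnected_compl_of_one_lt_rank
    rw [← finrank_eq_rank, finrank_euclideanSpace_fin]
    exact_mod_cast hn
  have h2 : (Fᶜ : Set (Sn n)) = e.symm '' ((e '' (F ∩ e.source))ᶜ) := by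
    ext x
    constructor
    · intro hx
      have hxs : x ∈ e.source := by
        rw [hs]
        intro h
        rw [mem_singleton_iff] at h
        exact hx (h ▸ hv)
      refine ⟨e x, ?_, e.left_inv hxs⟩
      rintro ⟨y, ⟨hy, hys⟩, hxy⟩
      have := e.injOn hys hxs hxy
      exact hx (this ▸ hy)
    · rintro ⟨y, hy, rfl⟩ hF'
      apply hy
      have hyt : y ∈ e.target := by rw [ht]; exact mem_univ _
      exact ⟨e.symm y, ⟨hF', e.map_target hyt⟩, e.right_inv hyt⟩
  rw [h2]
  apply h1.image'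
  apply e.continuousOn_symm.mono
  rw [ht]
  exact subset_univ _

theorem finite_roots {p : ℕ} (hp : 0 < p) (l : Circle) : {ζ : Circle | ζ ^ p = l}.Finite := by
  have h1 : ((Polynomial.nthRoots p (l : ℂ)).toFinset : Set ℂ).Finite := Finset.finite_toSet _
  refine (h1.preimage (f := fun ζ : Circle => (ζ : ℂ)) (fun a _ b _ h => Circle.ext h)).subset ?_
  intro ζ hζ
  simp only [mem_preimage, Finset.mem_coe, Multiset.mem_toFinset, Polynomial.mem_nthRoots hp]
  rw [← Circle.coe_pow]
  exact congrArg _ hζ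

theorem exists_root {p : ℕ} (hp : 0 < p) (l : Circle) : ∃ ζ : Circle, ζ ^ p = l := by
  obtain ⟨t, rfl⟩ := Circle.exp_surjective l
  refine ⟨Circle.exp (t / p), ?_⟩
  rw [← Circle.exp_nsmul, nsmul_eq_mul]
  congr 1
  field_simp

theorem isConnected_fibre {p : ℕ} (hp : 0 < p) (m : ℕ) (l : Circle) :
    IsConnected ((fun q : Piece p m => q.1.1) ⁻¹' {l}) := by
  set F : Set (Sn (m + 2)) := coreS '' {ζ : Circle | ζ ^ p = l} with hF
  obtain ⟨ζ₀, h0⟩ := exists_root hp l
  have h1 : IsPathConnected Fᶜ := isPathConnected_sphere_diff (by omega)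
    ((finite_roots hp l).image _).countable (coreS ζ₀) ⟨ζ₀, h0, rfl⟩
  have hmem : ∀ x : ↥(Fᶜ), ((l, x.1) : Circle × Sn (m + 2)) ∈ pieceO p m := by
    rintro ⟨x, hx⟩ ζ hζ h
    exact hx ⟨ζ, hζ, Subtype.ext h.symm⟩
  let s : ↥(Fᶜ) → Piece p m := fun x => ⟨(l, x.1), hmem x⟩
  have hs : Continuous s := by
    apply Continuous.subtype_mk
    fun_prop
  have h2 : (fun q : Piece p m => q.1.1) ⁻¹' {l} = range s := by
    ext q
    constructor
    · intro hq
      have hq1 : q.1.1 = l := hq
      refine ⟨⟨q.1.2, ?_⟩, ?_⟩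
      · rintro ⟨ζ, hζ, h⟩
        exact q.2 ζ (by rw [hq1]; exact hζ) (congrArg Subtype.val h).symm
      · exact Subtype.ext (Prod.ext hq1.symm rfl)
    · rintro ⟨x, rfl⟩
      rfl
  rw [h2]
  have : ConnectedSpace ↥(Fᶜ) := isConnected_iff_connectedSpace.1 h1.isConnected
  exact isConnected_range hs

theorem connectedSpace_piece {p : ℕ} (hp : 0 < p) (m : ℕ) : ConnectedSpace (Piece p m) := by
  have hcont : Continuous fun q : Piece p m => q.1.1 := by fun_prop
  have hopen : IsOpenMap fun q : Piece p m => q.1.1 :=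
    isOpenMap_fst.comp (pieceO p m).isOpen.isOpenMap_subtype_val
  have hsurj : Function.Surjective fun q : Piece p m => q.1.1 := by
    intro l
    obtain ⟨q, hq⟩ := (isConnected_fibre hp m l).nonempty
    exact ⟨q, hq⟩
  have hq : Topology.IsQuotientMap fun q : Piece p m => q.1.1 :=
    hopen.isQuotientMap hcont hsurj
  have h := hq.isCoinducing.isConnected_preimage_of_isClosed
    (fun l => isConnected_fibre hp m l) isClosed_univ isConnected_univ
  rw [preimage_univ] at h
  exact connectedSpace_iff_univ.2 h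

/-! ### the core is removed -/

theorem sg_zero_eq : (sg (0 : Eu k) : Eu (k + 1)) = EuclideanSpace.single 0 1 := by
  ext i
  refine Fin.cases ?_ (fun i => ?_) i
  · rw [sg_zero]
    simp
  · rw [sg_succ]
    simp

theorem tubeF_zero_notMem (p : ℕ) (ζ : Circle) : tubeF p (ζ, (0 : Eu (m + 2))) ∉ pieceSet p m := by
  intro h
  rw [tubeF_eq p (by simp)] at h
  apply h ζ rfl
  change tubeV ζ 0 = core ζ
  unfold tubeV core
  rw [sg_zero_eq]

theorem continuousAt_tubeF (p : ℕ) {q : Circle × Eu (m + 2)} (h : ‖q.2‖ < 1) :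
    ContinuousAt (tubeF p) q := (contMDiffAt_tubeF (r := 0) p h).continuousAt

/-- the second open embedding -/
def neckMap3 (m : ℕ) (q : Neck m) : Piece 3 m := neckMap 3 m (Or.inr rfl) (twN m q)

/-- the first open embedding -/
def neckMap2 (m : ℕ) (q : Neck m) : Piece 2 m := neckMap 2 m (Or.inl rfl) q

theorem isOpenEmbedding_neckMap2 (m : ℕ) : Topology.IsOpenEmbedding (neckMap2 m) :=
  isOpenEmbedding_neckMap 2 m (Or.inl rfl)

theorem isOpenEmbedding_neckMap3 (m : ℕ) : Topology.IsOpenEmbedding (neckMap3 m) :=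
  (isOpenEmbedding_neckMap 3 m (Or.inr rfl)).comp (twN m).isOpenEmbedding

theorem coe_neckMap2 (q : Neck m) :
    ((neckMap2 m q : Piece 2 m) : Circle × Sn (m + 2)) = tubeF 2 q.1 :=
  coe_neckMap 2 m (Or.inl rfl) q

theorem coe_neckMap3 (q : Neck m) :
    ((neckMap3 m q : Piece 3 m) : Circle × Sn (m + 2)) = tubeF 3 (q.1.1, tw q.1.1 q.1.2) :=
  coe_neckMap 3 m (Or.inr rfl) (twN m q)

theorem isClosed_graph (m : ℕ) : IsClosed (range fun q : Neck m => (neckMap2 m q, neckMap3 m q)) := by
  apply IsSeqClosed.isClosed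
  rintro x ⟨a, b⟩ hx hlim
  choose q hq using hx
  have hK : IsCompact ((univ : Set Circle) ×ˢ closedBall (0 : Eu (m + 2)) (1 / 2)) :=
    isCompact_univ.prod (isCompact_closedBall _ _)
  obtain ⟨⟨ζ, c⟩, hc, φ, hφ, hlimq⟩ := hK.tendsto_subseq (x := fun n => (q n).1)
    (fun n => ⟨mem_univ _, by
      rw [mem_closedBall_zero_iff]
      exact (q n).2.2.le⟩)
  have hc2 : ‖c‖ ≤ 1 / 2 := by simpa using hc.2
  have hla : Tendsto (fun n => ((x (φ n)).1 : Circle × Sn (m + 2))) atTop (𝓝 a.1) := by
    have h1 : Tendsto (fun n => x (φ n)) atTop (𝓝 (a, b)) := hlim.comp hφ.tendsto_atTop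
    exact (continuous_subtype_val.comp continuous_fst).continuousAt.tendsto.comp h1
  have hlb : Tendsto (fun n => ((x (φ n)).2 : Circle × Sn (m + 2))) atTop (𝓝 b.1) := by
    have h1 : Tendsto (fun n => x (φ n)) atTop (𝓝 (a, b)) := hlim.comp hφ.tendsto_atTop
    exact (continuous_subtype_val.comp continuous_snd).continuousAt.tendsto.comp h1
  have ha : a.1 = tubeF 2 (ζ, c) := by
    have h1 : Tendsto (fun n => tubeF 2 (q (φ n)).1) atTop (𝓝 (tubeF 2 (ζ, c))) :=
      (continuousAt_tubeF 2 (q := (ζ, c)) (lt_of_le_of_lt hc2 (by norm_num))).tendsto.comp hlimq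
    have h2 : (fun n => ((x (φ n)).1 : Circle × Sn (m + 2))) =
        fun n => tubeF 2 (q (φ n)).1 := by
      funext n
      rw [← hq (φ n)]
      exact coe_neckMap2 _
    rw [h2] at hla
    exact tendsto_nhds_unique hla h1
  have hc0 : c ≠ 0 := by
    rintro rfl
    exact tubeF_zero_notMem 2 ζ (ha ▸ a.2)
  have hcp : 0 < ‖c‖ := norm_pos_iff.2 hc0
  have hb : b.1 = tubeF 3 (ζ, tw ζ c) := by
    have h1 : ContinuousAt (fun q : Circle × Eu (m + 2) => (q.1, tw q.1 q.2)) (ζ, c) :=
      (contMDiffAt_tw (r := 0) (q := (ζ, c)) hcp).continuousAt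
    have h2 : ‖tw ζ c‖ < 1 := by
      unfold tw
      rw [norm_smul, norm_rot_circle, Real.norm_eq_abs, abs_of_nonneg
        (div_nonneg (by linarith) hcp.le), div_mul_cancel₀ _ hcp.ne']
      linarith
    have h3 : Tendsto (fun n => tubeF 3 ((q (φ n)).1.1, tw (q (φ n)).1.1 (q (φ n)).1.2)) atTop
        (𝓝 (tubeF 3 (ζ, tw ζ c))) := by
      have h4 : Tendsto (fun n => ((q (φ n)).1.1, tw (q (φ n)).1.1 (q (φ n)).1.2)) atTop
          (𝓝 (ζ, tw ζ c)) := h1.tendsto.comp hlimq
      exact (continuousAt_tubeF 3 (q := (ζ, tw ζ c)) h2).tendsto.comp h4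
    have h5 : (fun n => ((x (φ n)).2 : Circle × Sn (m + 2))) =
        fun n => tubeF 3 ((q (φ n)).1.1, tw (q (φ n)).1.1 (q (φ n)).1.2) := by
      funext n
      rw [← hq (φ n)]
      exact coe_neckMap3 _
    rw [h5] at hlb
    exact tendsto_nhds_unique hlb h3
  have hc1 : ‖c‖ < 1 / 2 := by
    refine lt_of_le_of_ne hc2 fun h => ?_
    have h1 : tw ζ c = 0 := by
      unfold tw
      rw [h]
      simp
    rw [h1] at hb
    exact tubeF_zero_notMem 3 ζ (hb ▸ b.2)
  refine ⟨⟨(ζ, c), hcp, hc1⟩, ?_⟩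
  refine Prod.ext (Subtype.ext ?_) (Subtype.ext ?_)
  · rw [ha]
    exact coe_neckMap2 _
  · rw [hb]
    exact coe_neckMap3 _

/-! ### compactness -/

/-- the compact core of a piece -/
def corePiece (p m : ℕ) : Set (Piece p m) :=
  {a | ∀ q : Circle × Eu (m + 2), ‖q.2‖ < 1 / 4 → (a : Circle × Sn (m + 2)) ≠ tubeF p q}

theorem isCompact_corePiece (p m : ℕ) (hp : p = 2 ∨ p = 3) : IsCompact (corePiece p m) := by
  rw [Topology.IsInducing.subtypeVal.isCompact_iff]
  have h : (Subtype.val : Piece p m → Circle × Sn (m + 2)) '' corePiece p m =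
      (tubeP p hp m '' {q | ‖q.2‖ < 1 / 4})ᶜ := by
    ext s
    constructor
    · rintro ⟨a, ha, rfl⟩ ⟨q, hq, h⟩
      exact ha q hq h.symm
    · intro hs
      have h1 : ∀ q : Circle × Eu (m + 2), ‖q.2‖ < 1 / 4 → s ≠ tubeF p q := by
        rintro q hq rfl
        exact hs ⟨q, hq, rfl⟩
      have h2 : s ∈ pieceO p m := by
        intro ζ hζ h
        apply h1 (ζ, 0) (by simp)
        rw [tubeF_eq p (by simp)]
        refine Prod.ext hζ.symm (Subtype.ext ?_)
        rw [h]
        change core ζ = tubeV ζ 0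
        unfold tubeV core
        rw [sg_zero_eq]
      exact ⟨⟨s, h2⟩, h1, rfl⟩
  change IsCompact ((Subtype.val : Piece p m → Circle × Sn (m + 2)) '' corePiece p m)
  rw [h]
  apply IsClosed.isCompact
  rw [isClosed_compl_iff]
  apply (tubeP p hp m).isOpen_image_of_subset_source
  · exact isOpen_lt (by fun_prop) continuous_const
  · intro q hq
    have : ‖q.2‖ < 1 / 4 := hq
    change ‖q.2‖ < 1 / 2
    linarith

theorem exists_neck_of_notMem {p : ℕ} {a : Piece p m} (h : a ∉ corePiece p m) :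
    ∃ q : Neck m, ‖q.1.2‖ < 1 / 4 ∧ (a : Circle × Sn (m + 2)) = tubeF p q.1 := by
  simp only [corePiece, mem_ofPred_eq, not_forall, not_not] at h
  obtain ⟨⟨ζ, c⟩, hc, h⟩ := h
  have hc0 : c ≠ 0 := by
    rintro rfl
    exact tubeF_zero_notMem p ζ (h ▸ a.2)
  refine ⟨⟨(ζ, c), norm_pos_iff.2 hc0, ?_⟩, hc, h⟩
  simp only at hc ⊢
  linarith

theorem mem_corePiece {p : ℕ} (hp : p = 2 ∨ p = 3) {q : Neck m} (hq : 1 / 4 ≤ ‖q.1.2‖)
    {a : Piece p m} (h : (a : Circle × Sn (m + 2)) = tubeF p q.1) : a ∈ corePiece p m := by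
  intro q' hq' h'
  rw [h] at h'
  have h1 : q.1 = q' := (tubeP p hp m).injOn q.2.2 (by
    change ‖q'.2‖ < 1 / 2
    linarith) h'
  rw [h1] at hq
  linarith

theorem top : TopStatement := by
  intro m
  have h2 := isOpenEmbedding_neckMap2 m
  have h3 := isOpenEmbedding_neckMap3 m
  let D : Glued m (GZ h2.injective h3.injective) :=
    { j₂ := fun a => gpi h2.injective h3.injective (Sum.inl a)
      j₃ := fun b => gpi h2.injective h3.injective (Sum.inr b)
      emb₂ := isOpenEmbedding_gl h2 h3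
      emb₃ := isOpenEmbedding_gr h2 h3
      cover := by
        rw [eq_univ_iff_forall]
        intro z
        obtain ⟨x, rfl⟩ := (isOpenQuotientMap_gpi h2 h3).surjective z
        rcases x with a | b
        · exact Or.inl ⟨a, rfl⟩
        · exact Or.inr ⟨b, rfl⟩
      glue := fun a b => gpi_eq _ _ _ _ }
  have hD2 : ∀ a, D.j₂ a = gpi h2.injective h3.injective (Sum.inl a) := fun _ => rfl
  have hD3 : ∀ a, D.j₃ a = gpi h2.injective h3.injective (Sum.inr a) := fun _ => rfl
  refine ⟨GZ h2.injective h3.injective, inferInstance, D, ?_, ?_, ?_⟩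
  · have hc : (univ : Set (GZ h2.injective h3.injective)) =
        D.j₂ '' corePiece 2 m ∪ D.j₃ '' corePiece 3 m := by
      symm
      rw [eq_univ_iff_forall]
      intro z
      have hz : z ∈ range D.j₂ ∪ range D.j₃ := D.cover ▸ mem_univ z
      rcases hz with ⟨a, rfl⟩ | ⟨b, rfl⟩
      · by_cases ha : a ∈ corePiece 2 m
        · exact Or.inl ⟨a, ha, rfl⟩
        · obtain ⟨q, hq, haq⟩ := exists_neck_of_notMem ha
          right
          refine ⟨neckMap3 m q, ?_, ?_⟩
          · apply mem_corePiece (Or.inr rfl) (q := twN m q)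
            · change 1 / 4 ≤ ‖tw q.1.1 q.1.2‖
              rw [norm_tw q.2.1 q.2.2]
              linarith
            · exact coe_neckMap3 q
          · symm
            rw [D.glue]
            exact ⟨q, Subtype.ext (haq.trans (coe_neckMap2 q).symm), rfl⟩
      · by_cases hb : b ∈ corePiece 3 m
        · exact Or.inr ⟨b, hb, rfl⟩
        · obtain ⟨q, hq, hbq⟩ := exists_neck_of_notMem hb
          left
          refine ⟨neckMap2 m ((twN m).symm q), ?_, ?_⟩
          · apply mem_corePiece (Or.inl rfl) (q := (twN m).symm q)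
            · change 1 / 4 ≤ ‖twInv q.1.1 q.1.2‖
              rw [norm_twInv q.2.1 q.2.2]
              linarith
            · exact coe_neckMap2 _
          · rw [D.glue]
            refine ⟨(twN m).symm q, rfl, ?_⟩
            rw [Homeomorph.apply_symm_apply]
            exact Subtype.ext (hbq.trans (coe_neckMap 3 m (Or.inr rfl) q).symm)
    refine ⟨?_⟩
    rw [hc]
    exact ((isCompact_corePiece 2 m (Or.inl rfl)).image D.emb₂.continuous).union
      ((isCompact_corePiece 3 m (Or.inr rfl)).image D.emb₃.continuous)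
  · exact t2Space_glue h2 h3 (isClosed_graph m)
  · have := connectedSpace_piece (p := 2) (by norm_num) m
    have := connectedSpace_piece (p := 3) (by norm_num) m
    rw [connectedSpace_iff_univ, ← D.cover]
    apply IsConnected.union
    · obtain ⟨q⟩ : Nonempty (Neck m) := by
        refine ⟨⟨(1, (1 / 4 : ℝ) • EuclideanSpace.single 0 1), ?_, ?_⟩⟩
        · simp only [norm_smul]
          norm_num
        · simp only [norm_smul]
          norm_num
      refine ⟨D.j₂ (neckMap2 m q), ⟨_, rfl⟩, ⟨neckMap3 m q, ?_⟩⟩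
      symm
      rw [D.glue]
      exact ⟨q, rfl, rfl⟩
    · exact isConnected_range D.emb₂.continuous
    · exact isConnected_range D.emb₃.continuous

end Pool.Agent.S1S3
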