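import Pool.Agent.Helper83_S1S3.Geo

/-!
# The tube around the removed curve as a partial diffeomorphism
-/

set_option autoImplicit false
set_option linter.unusedSectionVars false

open scoped Manifold ContDiff Topology
open Set

noncomputable section

namespace Pool.Agent.S1S3

variable {k m : ℕ}

/-! ### complex coordinate -/

/-- the first two coordinates as a complex number -/
def zc (x : Eu (k + 2)) : ℂ := ⟨x 0, x 1⟩

/-- the last coordinates -/
def tl (x : Eu (k + 1)) : Eu k := WithLp.toLp 2 fun i => x i.succ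

theorem tl_apply (x : Eu (k + 1)) (i : Fin k) : tl x i = x i.succ := rfl

theorem zc_rot (z : ℂ) (x : Eu (k + 2)) : zc (rot z x) = z * zc x := by
  apply Complex.ext
  · simp [zc, rot_apply_zero]
  · simp [zc, rot_apply_one]
    ring

theorem tl_sg (b : Eu k) : tl (sg b) = b := by
  ext i
  rw [tl_apply, sg_succ]

theorem norm_sq_tl (x : Eu (k + 1)) : ‖x‖ ^ 2 = x 0 ^ 2 + ‖tl x‖ ^ 2 := by
  rw [EuclideanSpace.norm_sq_eq, EuclideanSpace.norm_sq_eq, Fin.sum_univ_succ]
  simp only [Real.norm_eq_abs, sq_abs, tl_apply]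

theorem sg_tl {x : Eu (k + 1)} (hx : ‖x‖ = 1) (h0 : 0 ≤ x 0) : sg (tl x) = x := by
  have h := norm_sq_tl x
  rw [hx] at h
  ext i
  refine Fin.cases ?_ (fun i => ?_) i
  · rw [sg_zero]
    have : 1 - ‖tl x‖ ^ 2 = x 0 ^ 2 := by linarith
    rw [this, Real.sqrt_sq h0]
  · rw [sg_succ, tl_apply]

theorem zc_sg_re (b : Eu (m + 2)) : (zc (sg b : Eu (m + 3))).re = Real.sqrt (1 - ‖b‖ ^ 2) := rfl

theorem zc_sg_im (b : Eu (m + 2)) : (zc (sg b : Eu (m + 3))).im = b 0 := rfl

theorem abs_apply_le (b : Eu (m + 2)) (i : Fin (m + 2)) : |b i| ≤ ‖b‖ := by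
  rw [← Real.norm_eq_abs]
  exact PiLp.norm_apply_le b i

/-- the complex coordinate of the section over the ball of radius `1/2` has argument at most
`π/6` -/
theorem arg_zc_sg {b : Eu (m + 2)} (hb : ‖b‖ < 1 / 2) :
    |Complex.arg (zc (sg b : Eu (m + 3)))| < Real.pi / 6 := by
  set w := zc (sg b : Eu (m + 3)) with hw
  have hre : w.re = Real.sqrt (1 - ‖b‖ ^ 2) := rfl
  have him : w.im = b 0 := rfl
  have h1 : 0 < 1 - ‖b‖ ^ 2 := by nlinarith [norm_nonneg b]
  have hre0 : 0 < w.re := by rw [hre]; exact Real.sqrt_pos.2 h1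
  have hre2 : w.re ^ 2 = 1 - ‖b‖ ^ 2 := by rw [hre]; exact Real.sq_sqrt h1.le
  have hb0 : |b 0| ≤ ‖b‖ := abs_apply_le b 0
  have hb02 : b 0 ^ 2 ≤ ‖b‖ ^ 2 := by
    rw [← sq_abs (b 0)]
    exact pow_le_pow_left₀ (abs_nonneg _) hb0 2
  have hn : ‖w‖ ^ 2 = w.re ^ 2 + w.im ^ 2 := by
    rw [Complex.sq_norm, Complex.normSq_apply]
    ring
  have hn0 : 0 < ‖w‖ := by
    apply norm_pos_iff.2
    intro h
    rw [h] at hre0
    simp at hre0
  have hlt : |w.im / ‖w‖| < 1 / 2 := by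
    rw [abs_div, abs_of_pos hn0, div_lt_iff₀ hn0]
    have h2 : (2 * |w.im|) ^ 2 < ‖w‖ ^ 2 := by
      rw [mul_pow, sq_abs, hn, hre2, him]
      nlinarith [norm_nonneg b]
    have h3 : 2 * |w.im| < ‖w‖ := lt_of_pow_lt_pow_left₀ 2 hn0.le h2
    linarith
  rw [Complex.arg_of_re_nonneg hre0.le]
  have h6 : Real.arcsin (1 / 2) = Real.pi / 6 := by
    rw [← Real.sin_pi_div_six]
    apply Real.arcsin_sin <;> linarith [Real.pi_pos]
  have h6' : Real.arcsin (-(1 / 2)) = -(Real.pi / 6) := by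
    rw [Real.arcsin_neg, h6]
  rw [abs_lt] at hlt ⊢
  constructor
  · rw [← h6']
    apply Real.arcsin_lt_arcsin (by norm_num) hlt.1
    have := hlt.2
    linarith
  · rw [← h6]
    apply Real.arcsin_lt_arcsin _ hlt.2 (by norm_num)
    linarith [hlt.1]

theorem zc_sg_ne {b : Eu (m + 2)} (hb : ‖b‖ < 1 / 2) : zc (sg b : Eu (m + 3)) ≠ 0 := by
  intro h
  have h1 : 0 < 1 - ‖b‖ ^ 2 := by nlinarith [norm_nonneg b]
  have := Real.sqrt_pos.2 h1
  rw [← zc_sg_re b, h] at this
  simp at this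

/-- for `|p arg w| ≤ π` the logarithm of a power -/
theorem log_pow_of {w : ℂ} (hw : w ≠ 0) {p : ℕ} (h : |(p : ℝ) * Complex.arg w| < Real.pi) :
    Complex.log (w ^ p) = p * Complex.log w := by
  have h1 : w ^ p = Complex.exp (p * Complex.log w) := by
    rw [Complex.exp_nat_mul, Complex.exp_log hw]
  rw [h1, Complex.log_exp]
  · have : ((p : ℂ) * Complex.log w).im = p * Complex.arg w := by
      simp [Complex.log_im]
    rw [this]
    exact (abs_lt.1 h).1
  · have : ((p : ℂ) * Complex.log w).im = p * Complex.arg w := by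
      simp [Complex.log_im]
    rw [this]
    exact (abs_lt.1 h).2.le

end Pool.Agent.S1S3
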