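import Pool.Agent.Helper58_S1S3.Tube

/-!
# The tube around the removed curve as an open partial homeomorphism
-/

set_option autoImplicit false
set_option linter.unusedSectionVars false

open scoped Manifold ContDiff Topology
open Set

noncomputable section

namespace Pool.Agent.S1S3

variable {k m : ℕ}

theorem mem_us {z : ℂ} (h : ‖z‖ = 1) : z ∈ Submonoid.unitSphere ℂ :=
  mem_sphere_zero_iff_norm.2 h

/-- a complex number of norm one as a point of the circle -/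
def circMk (z : ℂ) (h : ‖z‖ = 1) : Circle := (⟨z, mem_us h⟩ : Submonoid.unitSphere ℂ)

theorem coe_circMk (z : ℂ) (h : ‖z‖ = 1) : (circMk z h : ℂ) = z := rfl

theorem norm_div_norm {z : ℂ} (h : z ≠ 0) : ‖z / ‖z‖‖ = 1 := by
  rw [norm_div, Complex.norm_real, norm_norm, div_self (norm_ne_zero_iff.2 h)]

open Classical in
/-- the direction of a complex number -/
def dirC (z : ℂ) : Circle :=
  if h : z = 0 then 1 else circMk (z / ‖z‖) (norm_div_norm h)

theorem coe_dirC {z : ℂ} (h : z ≠ 0) : (dirC z : ℂ) = z / ‖z‖ := by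
  unfold dirC
  rw [dif_neg h]
  rfl

theorem norm_mul_dirC {z : ℂ} (h : z ≠ 0) : (‖z‖ : ℂ) * dirC z = z := by
  rw [coe_dirC h]
  have : (‖z‖ : ℂ) ≠ 0 := by exact_mod_cast norm_ne_zero_iff.2 h
  field_simp

/-- the recovered circle coordinate -/
def zeta (p : ℕ) (q : Circle × Sn (m + 2)) : Circle :=
  dirC (zc (q.2 : Eu (m + 3))) *
    Circle.exp (-(Complex.log (zc (q.2 : Eu (m + 3)) ^ p / (q.1 : ℂ))).im / p)

/-- the tube map -/
def tubeF (p : ℕ) (q : Circle × Eu (m + 2)) : Circle × Sn (m + 2) :=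
  (q.1 ^ p, if h : ‖q.2‖ ≤ 1 then tubeS q.1 q.2 h else coreS q.1)

theorem tubeF_eq (p : ℕ) {q : Circle × Eu (m + 2)} (h : ‖q.2‖ ≤ 1) :
    tubeF p q = (q.1 ^ p, tubeS q.1 q.2 h) := by
  unfold tubeF
  rw [dif_pos h]

/-- the inverse of the tube map -/
def tubeG (p : ℕ) (q : Circle × Sn (m + 2)) : Circle × Eu (m + 2) :=
  (zeta p q, tl (rot (((zeta p q)⁻¹ : Circle) : ℂ) (q.2 : Eu (m + 3))))

/-- the domain on which the inverse makes sense -/
def tubeO (p : ℕ) : Set (Circle × Sn (m + 2)) :=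
  {q | 0 < (zc (q.2 : Eu (m + 3)) ^ p / (q.1 : ℂ)).re}

theorem zc_ne_of_mem {p : ℕ} (hp : p ≠ 0) {q : Circle × Sn (m + 2)} (h : q ∈ tubeO p) :
    zc (q.2 : Eu (m + 3)) ≠ 0 := by
  intro h0
  simp only [tubeO, mem_ofPred_eq] at h
  rw [h0, zero_pow hp, zero_div] at h
  simp at h

theorem zc_tubeS (ζ : Circle) (b : Eu (m + 2)) (hb : ‖b‖ ≤ 1) :
    zc ((tubeS ζ b hb : Sn (m + 2)) : Eu (m + 3)) = (ζ : ℂ) * zc (sg b : Eu (m + 3)) := by
  change zc (tubeV ζ b) = _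
  unfold tubeV
  rw [zc_rot]

theorem quot_tubeF (p : ℕ) {q : Circle × Eu (m + 2)} (h : ‖q.2‖ ≤ 1) :
    zc ((tubeF p q).2 : Eu (m + 3)) ^ p / ((tubeF p q).1 : ℂ) =
      zc (sg q.2 : Eu (m + 3)) ^ p := by
  rw [tubeF_eq p h]
  simp only
  rw [zc_tubeS, mul_pow, Circle.coe_pow]
  have : ((q.1 : ℂ)) ^ p ≠ 0 := pow_ne_zero _ (Circle.coe_ne_zero _)
  field_simp

theorem arg_lt {p : ℕ} (hp : p = 2 ∨ p = 3) {b : Eu (m + 2)} (hb : ‖b‖ < 1 / 2) :
    |(p : ℝ) * Complex.arg (zc (sg b : Eu (m + 3)))| < Real.pi / 2 := by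
  have h := arg_zc_sg hb
  rw [abs_mul, Nat.abs_cast]
  have hpi := Real.pi_pos
  rcases hp with rfl | rfl
  · push_cast
    linarith
  · push_cast
    linarith

theorem mem_tubeO {p : ℕ} (hp : p = 2 ∨ p = 3) {q : Circle × Eu (m + 2)} (h : ‖q.2‖ < 1 / 2) :
    tubeF p q ∈ tubeO p := by
  have hle : ‖q.2‖ ≤ 1 := by linarith
  simp only [tubeO, mem_ofPred_eq]
  rw [quot_tubeF p hle]
  set w := zc (sg q.2 : Eu (m + 3)) with hw
  have hw0 : w ≠ 0 := zc_sg_ne h
  have hlog : Complex.log (w ^ p) = p * Complex.log w := by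
    apply log_pow_of hw0
    have := arg_lt hp h
    linarith [Real.pi_pos]
  have harg : |Complex.arg (w ^ p)| < Real.pi / 2 := by
    have : Complex.arg (w ^ p) = p * Complex.arg w := by
      have := congrArg Complex.im hlog
      simpa [Complex.log_im] using this
    rw [this]
    exact arg_lt hp h
  rcases Complex.abs_arg_lt_pi_div_two_iff.1 harg with h1 | h1
  · exact h1
  · exact absurd h1 (pow_ne_zero _ hw0)

theorem zeta_tubeF {p : ℕ} (hp : p = 2 ∨ p = 3) {q : Circle × Eu (m + 2)} (h : ‖q.2‖ < 1 / 2) :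
    zeta p (tubeF p q) = q.1 := by
  have hle : ‖q.2‖ ≤ 1 := by linarith
  unfold zeta
  rw [quot_tubeF p hle]
  set w := zc (sg q.2 : Eu (m + 3)) with hw
  have hw0 : w ≠ 0 := zc_sg_ne h
  have hlog : Complex.log (w ^ p) = p * Complex.log w := by
    apply log_pow_of hw0
    have := arg_lt hp h
    linarith [Real.pi_pos]
  have hp0 : (p : ℝ) ≠ 0 := by rcases hp with rfl | rfl <;> norm_num
  have h1 : -(Complex.log (w ^ p)).im / p = -Complex.arg w := by
    rw [hlog]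
    have : ((p : ℂ) * Complex.log w).im = p * Complex.arg w := by
      simp [Complex.log_im]
    rw [this]
    field_simp
  rw [h1]
  have hz : zc ((tubeF p q).2 : Eu (m + 3)) = (q.1 : ℂ) * w := by
    rw [tubeF_eq p hle]
    exact zc_tubeS _ _ hle
  have hz0 : zc ((tubeF p q).2 : Eu (m + 3)) ≠ 0 := by
    rw [hz]
    exact mul_ne_zero (Circle.coe_ne_zero _) hw0
  apply Circle.ext
  rw [Circle.coe_mul, coe_dirC hz0, hz, Circle.coe_exp]
  rw [norm_mul, Circle.norm_coe, one_mul]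
  have h2 : (‖w‖ : ℂ) * Complex.exp (Complex.arg w * Complex.I) = w := Complex.norm_mul_exp_arg_mul_I w
  have h3 : Complex.exp (((-Complex.arg w : ℝ) : ℂ) * Complex.I) *
      Complex.exp (Complex.arg w * Complex.I) = 1 := by
    rw [← Complex.exp_add]
    push_cast
    rw [neg_mul, neg_add_cancel, Complex.exp_zero]
  have h4 : (‖w‖ : ℂ) ≠ 0 := by exact_mod_cast norm_ne_zero_iff.2 hw0
  calc (q.1 : ℂ) * w / ‖w‖ * Complex.exp (((-Complex.arg w : ℝ) : ℂ) * Complex.I)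
      = (q.1 : ℂ) * ((‖w‖ : ℂ) * Complex.exp (Complex.arg w * Complex.I)) / ‖w‖ *
          Complex.exp (((-Complex.arg w : ℝ) : ℂ) * Complex.I) := by rw [h2]
    _ = (q.1 : ℂ) * (Complex.exp (((-Complex.arg w : ℝ) : ℂ) * Complex.I) *
          Complex.exp (Complex.arg w * Complex.I)) := by field_simp
    _ = q.1 := by rw [h3, mul_one]

theorem tubeG_tubeF {p : ℕ} (hp : p = 2 ∨ p = 3) {q : Circle × Eu (m + 2)} (h : ‖q.2‖ < 1 / 2) :
    tubeG p (tubeF p q) = q := by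
  have hle : ‖q.2‖ ≤ 1 := by linarith
  unfold tubeG
  rw [zeta_tubeF hp h]
  refine Prod.ext rfl ?_
  simp only
  rw [tubeF_eq p hle]
  change tl (rot _ (tubeV q.1 q.2)) = _
  unfold tubeV
  rw [rot_inv_rot, tl_sg]

theorem zeta_pow {p : ℕ} (hp : p = 2 ∨ p = 3) {q : Circle × Sn (m + 2)} (h : q ∈ tubeO p) :
    zeta p q ^ p = q.1 := by
  have hpn : p ≠ 0 := by rcases hp with rfl | rfl <;> norm_num
  have hz0 := zc_ne_of_mem hpn h
  unfold zeta
  set z := zc (q.2 : Eu (m + 3)) with hz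
  set c := z ^ p / (q.1 : ℂ) with hc
  have hc0 : c ≠ 0 := div_ne_zero (pow_ne_zero _ hz0) (Circle.coe_ne_zero _)
  apply Circle.ext
  rw [Circle.coe_pow, Circle.coe_mul, mul_pow, coe_dirC hz0, Circle.coe_exp, ← Complex.exp_nat_mul]
  have h1 : (p : ℂ) * (((-(Complex.log c).im / p : ℝ) : ℂ) * Complex.I) =
      ((-Complex.arg c : ℝ) : ℂ) * Complex.I := by
    have : (p : ℂ) ≠ 0 := by exact_mod_cast hpn
    rw [Complex.log_im]
    push_cast
    field_simp
  rw [h1]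
  have h2 : (‖c‖ : ℂ) * Complex.exp (Complex.arg c * Complex.I) = c := Complex.norm_mul_exp_arg_mul_I c
  have h3 : Complex.exp (((-Complex.arg c : ℝ) : ℂ) * Complex.I) *
      Complex.exp (Complex.arg c * Complex.I) = 1 := by
    rw [← Complex.exp_add]
    push_cast
    rw [neg_mul, neg_add_cancel, Complex.exp_zero]
  have h4 : ‖c‖ = ‖z‖ ^ p := by
    rw [hc, norm_div, norm_pow, Circle.norm_coe, div_one]
  have h5 : (z : ℂ) ^ p = (q.1 : ℂ) * c := by
    rw [hc]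
    have := Circle.coe_ne_zero q.1
    field_simp
  have h6 : (‖z‖ : ℂ) ≠ 0 := by exact_mod_cast norm_ne_zero_iff.2 hz0
  rw [div_pow, h5, ← Complex.ofReal_pow, ← h4]
  have h7 : (‖c‖ : ℂ) ≠ 0 := by exact_mod_cast norm_ne_zero_iff.2 hc0
  calc (q.1 : ℂ) * c / ‖c‖ * Complex.exp (((-Complex.arg c : ℝ) : ℂ) * Complex.I)
      = (q.1 : ℂ) * ((‖c‖ : ℂ) * Complex.exp (Complex.arg c * Complex.I)) / ‖c‖ *
          Complex.exp (((-Complex.arg c : ℝ) : ℂ) * Complex.I) := by rw [h2]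
    _ = (q.1 : ℂ) * (Complex.exp (((-Complex.arg c : ℝ) : ℂ) * Complex.I) *
          Complex.exp (Complex.arg c * Complex.I)) := by field_simp
    _ = q.1 := by rw [h3, mul_one]

theorem rot_zeta_zero {p : ℕ} (hp : p = 2 ∨ p = 3) {q : Circle × Sn (m + 2)} (h : q ∈ tubeO p) :
    0 < (rot (((zeta p q)⁻¹ : Circle) : ℂ) (q.2 : Eu (m + 3))) 0 := by
  have hpn : p ≠ 0 := by rcases hp with rfl | rfl <;> norm_num
  have hz0 := zc_ne_of_mem hpn h
  have h1 : (rot (((zeta p q)⁻¹ : Circle) : ℂ) (q.2 : Eu (m + 3))) 0 =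
      ((((zeta p q)⁻¹ : Circle) : ℂ) * zc (q.2 : Eu (m + 3))).re := by
    rw [← zc_rot]
    rfl
  rw [h1]
  unfold zeta
  set z := zc (q.2 : Eu (m + 3)) with hz
  set c := z ^ p / (q.1 : ℂ) with hc
  have hcr : 0 < c.re := h
  have harg : |Complex.arg c| < Real.pi / 2 := Complex.abs_arg_lt_pi_div_two_iff.2 (Or.inl hcr)
  rw [mul_inv, Circle.coe_mul, ← Circle.exp_neg]
  have h2 : (((dirC z)⁻¹ : Circle) : ℂ) * z = ‖z‖ := by
    nth_rewrite 2 [← norm_mul_dirC hz0]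
    rw [mul_left_comm, ← Circle.coe_mul, inv_mul_cancel, Circle.coe_one, mul_one]
  rw [mul_right_comm, h2, Circle.coe_exp]
  have h3 : -(-(Complex.log c).im / (p : ℝ)) = Complex.arg c / p := by
    rw [Complex.log_im]
    ring
  rw [h3, Complex.re_ofReal_mul, Complex.exp_ofReal_mul_I_re]
  apply mul_pos (norm_pos_iff.2 hz0)
  apply Real.cos_pos_of_mem_Ioo
  have hp1 : (1 : ℝ) ≤ p := by rcases hp with rfl | rfl <;> norm_num
  have h4 : |Complex.arg c / p| < Real.pi / 2 := by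
    rw [abs_div, Nat.abs_cast]
    refine lt_of_le_of_lt (div_le_self (abs_nonneg _) hp1) harg
  rw [abs_lt] at h4
  exact ⟨by linarith [h4.1], h4.2⟩

theorem sg_tubeG {p : ℕ} (hp : p = 2 ∨ p = 3) {q : Circle × Sn (m + 2)} (h : q ∈ tubeO p) :
    sg (tubeG p q).2 = rot (((zeta p q)⁻¹ : Circle) : ℂ) (q.2 : Eu (m + 3)) := by
  unfold tubeG
  apply sg_tl
  · rw [norm_rot_circle, norm_eq_of_mem_sphere]
  · exact (rot_zeta_zero hp h).le

theorem tubeF_tubeG {p : ℕ} (hp : p = 2 ∨ p = 3) {q : Circle × Sn (m + 2)} (h : q ∈ tubeO p)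
    (hb : ‖(tubeG p q).2‖ ≤ 1) : tubeF p (tubeG p q) = q := by
  rw [tubeF_eq p hb]
  refine Prod.ext (zeta_pow hp h) (Subtype.ext ?_)
  change tubeV (zeta p q) (tubeG p q).2 = _
  unfold tubeV
  rw [sg_tubeG hp h, rot_rot_inv]

end Pool.Agent.S1S3
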