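import Pool.Agent.Helper58_S1S3.Tube2

/-!
# Smoothness of the tube map and of its inverse
-/

set_option autoImplicit false
set_option linter.unusedSectionVars false

open scoped Manifold ContDiff Topology
open Set Metric Module

noncomputable section

namespace Pool.Agent.S1S3

variable {k m : ℕ}

section general

variable {E : Type*} [NormedAddCommGroup E] [InnerProductSpace ℝ E]
variable {F : Type*} [NormedAddCommGroup F] [NormedSpace ℝ F]
variable {H : Type*} [TopologicalSpace H] {I : ModelWithCorners ℝ F H}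
variable {M : Type*} [TopologicalSpace M] [ChartedSpace H M]

/-- a map into the sphere is smooth at a point if it is smooth as a map into the space -/
theorem contMDiffAt_sphere {n : ℕ} [Fact (finrank ℝ E = n + 1)] {r : ℕ∞ω}
    {f : M → sphere (0 : E) 1} {x₀ : M}
    (hf : ContMDiffAt I 𝓘(ℝ, E) r (fun x => (f x : E)) x₀) :
    ContMDiffAt I (𝓡 n) r f x₀ := by
  rw [contMDiffAt_iff_target]
  refine ⟨Topology.IsInducing.subtypeVal.continuousAt_iff.2 hf.continuousAt, ?_⟩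
  let U := (OrthonormalBasis.fromOrthogonalSpanSingleton (𝕜 := ℝ)
        n (ne_zero_of_mem_unit_sphere (-(f x₀)))).repr
  have h0 : (f x₀ : E) ∈ {x : E | innerSL ℝ (-(f x₀ : E)) x ≠ (1 : ℝ)} := by
    have : ‖(f x₀ : E)‖ = 1 := norm_eq_of_mem_sphere _
    simp only [mem_ofPred_eq, innerSL_apply_apply, inner_neg_left, real_inner_self_eq_norm_sq, this]
    norm_num
  have ho : IsOpen {x : E | innerSL ℝ (-(f x₀ : E)) x ≠ (1 : ℝ)} := by
    apply isOpen_ne_fun
    · exact (innerSL ℝ (-(f x₀ : E))).continuous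
    · exact continuous_const
  have h1 : ContDiffAt ℝ r (fun y : E => U (stereoToFun (-(f x₀ : E)) y)) (f x₀ : E) :=
    U.contDiff.contDiffAt.comp _ ((contDiffOn_stereoToFun (n := r)).contDiffAt (ho.mem_nhds h0))
  exact ContMDiffAt.comp x₀ (g := fun y : E => U (stereoToFun (-(f x₀ : E)) y))
    (f := fun x => (f x : E)) h1.contMDiffAt hf

attribute [local instance] finrank_real_complex_fact'

theorem contMDiffAt_circle {r : ℕ∞ω} {f : M → Circle} {x₀ : M}
    (hf : ContMDiffAt I 𝓘(ℝ, ℂ) r (fun x => (f x : ℂ)) x₀) :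
    ContMDiffAt I (𝓡 1) r f x₀ :=
  contMDiffAt_sphere (E := ℂ) (f := f) hf

theorem contMDiff_coe_circle {r : ℕ∞ω} : ContMDiff (𝓡 1) 𝓘(ℝ, ℂ) r fun z : Circle => (z : ℂ) :=
  contMDiff_coe_sphere (E := ℂ) (n := 1)

end general

theorem factEu (n : ℕ) : Fact (finrank ℝ (Eu (n + 1)) = n + 1) :=
  ⟨finrank_euclideanSpace_fin⟩

attribute [local instance] factEu

theorem contDiff_rot {r : ℕ∞ω} :
    ContDiff ℝ r (fun q : ℂ × Eu (k + 2) => rot q.1 q.2) := by
  rw [contDiff_euclidean]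
  have hre : ContDiff ℝ r fun q : ℂ × Eu (k + 2) => q.1.re :=
    Complex.reCLM.contDiff.comp contDiff_fst
  have him : ContDiff ℝ r fun q : ℂ × Eu (k + 2) => q.1.im :=
    Complex.imCLM.contDiff.comp contDiff_fst
  have hx : ∀ i, ContDiff ℝ r fun q : ℂ × Eu (k + 2) => q.2 i := fun i =>
    (contDiff_euclidean.1 contDiff_snd) i
  intro i
  refine Fin.cases ?_ (fun i => ?_) i
  · simp only [rot_apply_zero]
    exact (hre.mul (hx 0)).sub (him.mul (hx 1))
  · refine Fin.cases ?_ (fun i => ?_) i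
    · simp only [Fin.succ_zero_eq_one, rot_apply_one]
      exact (him.mul (hx 0)).add (hre.mul (hx 1))
    · simp only [rot_apply_ge]
      exact hx _

theorem contDiffAt_sg {r : ℕ∞ω} {b : Eu k} (hb : ‖b‖ < 1) : ContDiffAt ℝ r (sg : Eu k → _) b := by
  rw [contDiffAt_euclidean]
  intro i
  refine Fin.cases ?_ (fun i => ?_) i
  · simp only [sg_zero]
    apply ContDiffAt.sqrt
    · exact contDiffAt_const.sub (contDiff_norm_sq ℝ).contDiffAt
    · nlinarith [norm_nonneg b]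
  · simp only [sg_succ]
    exact (contDiff_euclidean.1 contDiff_id i).contDiffAt

theorem contDiff_tl {r : ℕ∞ω} : ContDiff ℝ r (tl : Eu (k + 1) → Eu k) := by
  rw [contDiff_euclidean]
  intro i
  exact contDiff_euclidean.1 contDiff_id i.succ

theorem contDiff_zc {r : ℕ∞ω} : ContDiff ℝ r (zc : Eu (k + 2) → ℂ) := by
  have h : (zc : Eu (k + 2) → ℂ) = fun x => Complex.equivRealProdCLM.symm (x 0, x 1) := rfl
  rw [h]
  apply Complex.equivRealProdCLM.symm.contDiff.comp
  exact (contDiff_euclidean.1 contDiff_id 0).prodMk (contDiff_euclidean.1 contDiff_id 1)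

theorem contMDiffAt_tubeV {r : ℕ∞ω} {q : Circle × Eu (m + 2)} (h : ‖q.2‖ < 1) :
    ContMDiffAt ((𝓡 1).prod (𝓡 (m + 2))) 𝓘(ℝ, Eu (m + 3)) r
      (fun q : Circle × Eu (m + 2) => (tubeV q.1 q.2 : Eu (m + 3))) q := by
  unfold tubeV
  have h1 : ContMDiffAt ((𝓡 1).prod (𝓡 (m + 2))) 𝓘(ℝ, ℂ) r
      (fun q : Circle × Eu (m + 2) => (q.1 : ℂ)) q :=
    (contMDiff_coe_circle.comp contMDiff_fst).contMDiffAt
  have h2 : ContMDiffAt ((𝓡 1).prod (𝓡 (m + 2))) 𝓘(ℝ, Eu (m + 3)) r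
      (fun q : Circle × Eu (m + 2) => sg q.2) q :=
    (contDiffAt_sg h).contMDiffAt.comp q contMDiffAt_snd
  exact ContMDiffAt.comp q (g := fun q : ℂ × Eu (m + 3) => rot q.1 q.2)
    (f := fun q : Circle × Eu (m + 2) => ((q.1 : ℂ), sg q.2))
    contDiff_rot.contMDiff.contMDiffAt (h1.prodMk_space h2)

theorem contMDiffAt_tubeF {r : ℕ∞ω} (p : ℕ) {q : Circle × Eu (m + 2)} (h : ‖q.2‖ < 1) :
    ContMDiffAt ((𝓡 1).prod (𝓡 (m + 2))) ((𝓡 1).prod (𝓡 (m + 2))) r (tubeF p) q := by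
  apply ContMDiffAt.prodMk
  · exact ((contMDiff_pow p).comp contMDiff_fst).contMDiffAt
  · apply contMDiffAt_sphere
    apply (contMDiffAt_tubeV h).congr_of_eventuallyEq
    have ho : IsOpen {q : Circle × Eu (m + 2) | ‖q.2‖ < 1} :=
      isOpen_lt (by fun_prop) continuous_const
    filter_upwards [ho.mem_nhds h] with y hy
    rw [dif_pos (le_of_lt hy)]
    rfl

theorem contMDiffAt_dirC {r : ℕ∞ω} {z : ℂ} (hz : z ≠ 0) :
    ContMDiffAt 𝓘(ℝ, ℂ) (𝓡 1) r dirC z := by
  apply contMDiffAt_circle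
  have h1 : ContDiffAt ℝ r (fun w : ℂ => w / (‖w‖ : ℂ)) z := by
    simp only [div_eq_mul_inv]
    apply ContDiffAt.mul contDiffAt_id
    apply ContDiffAt.inv
    · exact Complex.ofRealCLM.contDiff.contDiffAt.comp z (contDiffAt_norm ℝ hz)
    · exact_mod_cast norm_ne_zero_iff.2 hz
  apply h1.contMDiffAt.congr_of_eventuallyEq
  filter_upwards [isOpen_ne.mem_nhds hz] with y hy
  exact coe_dirC hy

theorem contMDiffAt_zeta {r : ℕ∞ω} {p : ℕ} (hp : p = 2 ∨ p = 3) {q : Circle × Sn (m + 2)}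
    (h : q ∈ tubeO p) :
    ContMDiffAt ((𝓡 1).prod (𝓡 (m + 2))) (𝓡 1) r (zeta p) q := by
  have hpn : p ≠ 0 := by rcases hp with rfl | rfl <;> norm_num
  have hz0 := zc_ne_of_mem hpn h
  have hz : ContMDiffAt ((𝓡 1).prod (𝓡 (m + 2))) 𝓘(ℝ, ℂ) r
      (fun q : Circle × Sn (m + 2) => zc (q.2 : Eu (m + 3))) q :=
    (contDiff_zc.contMDiff.comp (contMDiff_coe_sphere.comp contMDiff_snd)).contMDiffAt
  have hl : ContMDiffAt ((𝓡 1).prod (𝓡 (m + 2))) 𝓘(ℝ, ℂ) r
      (fun q : Circle × Sn (m + 2) => (q.1 : ℂ)) q :=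
    (contMDiff_coe_circle.comp contMDiff_fst).contMDiffAt
  unfold zeta
  apply ContMDiffAt.mul
  · exact (contMDiffAt_dirC hz0).comp q hz
  · apply (contMDiff_circleExp.contMDiffAt).comp q
    have h1 : ContDiffAt ℝ r (fun w : ℂ × ℂ => -(Complex.log (w.1 ^ p / w.2)).im / (p : ℝ))
        (zc (q.2 : Eu (m + 3)), (q.1 : ℂ)) := by
      apply ContDiffAt.div_const
      apply ContDiffAt.neg
      refine Complex.imCLM.contDiff.contDiffAt.comp (f := fun w : ℂ × ℂ =>
        Complex.log (w.1 ^ p / w.2)) _ ?_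
      refine ContDiffAt.comp (g := Complex.log) (f := fun w : ℂ × ℂ => w.1 ^ p / w.2) _ ?_ ?_
      · exact (Complex.contDiffAt_log (Or.inl h)).restrict_scalars ℝ
      · simp only [div_eq_mul_inv]
        exact (contDiffAt_fst.pow p).mul (contDiffAt_snd.inv (Circle.coe_ne_zero q.1))
    exact h1.contMDiffAt.comp q (hz.prodMk_space hl)

theorem contMDiffAt_tubeG {r : ℕ∞ω} {p : ℕ} (hp : p = 2 ∨ p = 3) {q : Circle × Sn (m + 2)}
    (h : q ∈ tubeO p) :
    ContMDiffAt ((𝓡 1).prod (𝓡 (m + 2))) ((𝓡 1).prod (𝓡 (m + 2))) r (tubeG p) q := by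
  have h1 := contMDiffAt_zeta (r := r) hp h
  apply ContMDiffAt.prodMk h1
  have h2 : ContMDiffAt ((𝓡 1).prod (𝓡 (m + 2))) 𝓘(ℝ, ℂ) r
      (fun q : Circle × Sn (m + 2) => (((zeta p q)⁻¹ : Circle) : ℂ)) q :=
    contMDiff_coe_circle.contMDiffAt.comp q h1.inv
  have h3 : ContMDiffAt ((𝓡 1).prod (𝓡 (m + 2))) 𝓘(ℝ, Eu (m + 3)) r
      (fun q : Circle × Sn (m + 2) => (q.2 : Eu (m + 3))) q :=
    (contMDiff_coe_sphere.comp contMDiff_snd).contMDiffAt
  exact ContMDiffAt.comp q (g := fun q : ℂ × Eu (m + 3) => tl (rot q.1 q.2))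
    (f := fun q : Circle × Sn (m + 2) =>
      ((((zeta p q)⁻¹ : Circle) : ℂ), (q.2 : Eu (m + 3))))
    (contDiff_tl.comp contDiff_rot).contMDiff.contMDiffAt (h2.prodMk_space h3)

theorem isOpen_tubeO {p : ℕ} : IsOpen (tubeO p : Set (Circle × Sn (m + 2))) := by
  unfold tubeO
  apply isOpen_lt continuous_const
  apply Complex.continuous_re.comp
  apply Continuous.div
  · apply Continuous.pow
    exact (contDiff_zc (r := 0)).continuous.comp (continuous_subtype_val.comp continuous_snd)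
  · exact continuous_subtype_val.comp continuous_fst
  · intro q
    exact Circle.coe_ne_zero _

theorem continuousOn_tubeG {p : ℕ} (hp : p = 2 ∨ p = 3) :
    ContinuousOn (tubeG p) (tubeO p : Set (Circle × Sn (m + 2))) := fun _ hq =>
  (contMDiffAt_tubeG (r := 0) hp hq).continuousAt.continuousWithinAt

/-- the tube of radius `1/2` around the removed curve -/
def tubeP (p : ℕ) (hp : p = 2 ∨ p = 3) (m : ℕ) :
    OpenPartialHomeomorph (Circle × Eu (m + 2)) (Circle × Sn (m + 2)) where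
  toFun := tubeF p
  invFun := tubeG p
  source := {q | ‖q.2‖ < 1 / 2}
  target := tubeO p ∩ tubeG p ⁻¹' {q | ‖q.2‖ < 1 / 2}
  map_source' q hq := ⟨mem_tubeO hp hq, by
    simp only [mem_preimage]
    rw [tubeG_tubeF hp hq]
    exact hq⟩
  map_target' q hq := hq.2
  left_inv' q hq := tubeG_tubeF hp hq
  right_inv' q hq := tubeF_tubeG hp hq.1 (by
    have : ‖(tubeG p q).2‖ < 1 / 2 := hq.2
    linarith)
  open_source := isOpen_lt (by fun_prop) continuous_const
  open_target := (continuousOn_tubeG hp).isOpen_inter_preimage isOpen_tubeO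
    (isOpen_lt (by fun_prop) continuous_const)
  continuousOn_toFun q hq := by
    have h1 : ‖q.2‖ < 1 := by
      have : ‖q.2‖ < 1 / 2 := hq
      linarith
    exact (contMDiffAt_tubeF (r := 0) p h1).continuousAt.continuousWithinAt
  continuousOn_invFun := (continuousOn_tubeG hp).mono inter_subset_left

theorem contMDiffOn_tubeP {r : ℕ∞ω} (p : ℕ) (hp : p = 2 ∨ p = 3) (m : ℕ) :
    ContMDiffOn ((𝓡 1).prod (𝓡 (m + 2))) ((𝓡 1).prod (𝓡 (m + 2))) r (tubeP p hp m)
      (tubeP p hp m).source := fun q hq => by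
  have h1 : ‖q.2‖ < 1 := by
    have : ‖q.2‖ < 1 / 2 := hq
    linarith
  exact (contMDiffAt_tubeF p h1).contMDiffWithinAt

theorem contMDiffOn_tubeP_symm {r : ℕ∞ω} (p : ℕ) (hp : p = 2 ∨ p = 3) (m : ℕ) :
    ContMDiffOn ((𝓡 1).prod (𝓡 (m + 2))) ((𝓡 1).prod (𝓡 (m + 2))) r (tubeP p hp m).symm
      (tubeP p hp m).target := fun _ hq =>
  (contMDiffAt_tubeG hp hq.1).contMDiffWithinAt

end Pool.Agent.S1S3
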