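import Pool.Agent.Helper58_S1S3.Tube3

/-!
# The twist as a partial diffeomorphism; the necks are open in the pieces
-/

set_option autoImplicit false
set_option linter.unusedSectionVars false

open scoped Manifold ContDiff Topology
open Set Metric Module

noncomputable section

namespace Pool.Agent.S1S3

variable {k m : ℕ}

attribute [local instance] factEu

/-- the punctured tube -/
def neckSet (m : ℕ) : Set (Circle × Eu (m + 2)) := {q | 0 < ‖q.2‖ ∧ ‖q.2‖ < 1 / 2}

theorem isOpen_neckSet : IsOpen (neckSet m) := by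
  unfold neckSet
  apply IsOpen.and
  · exact isOpen_lt continuous_const (by fun_prop)
  · exact isOpen_lt (by fun_prop) continuous_const

theorem contMDiffAt_scal {r : ℕ∞ω} {q : Circle × Eu (m + 2)} (h : 0 < ‖q.2‖)
    {f : Circle × Eu (m + 2) → ℂ}
    (hf : ContMDiffAt ((𝓡 1).prod (𝓡 (m + 2))) 𝓘(ℝ, ℂ) r f q) :
    ContMDiffAt ((𝓡 1).prod (𝓡 (m + 2))) 𝓘(ℝ, Eu (m + 2)) r
      (fun q : Circle × Eu (m + 2) => ((1 / 2 - ‖q.2‖) / ‖q.2‖) • rot (f q) q.2) q := by
  have hn : q.2 ≠ 0 := norm_pos_iff.1 h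
  have h1 : ContDiffAt ℝ r (fun w : ℂ × Eu (m + 2) =>
      ((1 / 2 - ‖w.2‖) / ‖w.2‖) • rot w.1 w.2) (f q, q.2) := by
    have hnorm : ContDiffAt ℝ r (fun w : ℂ × Eu (m + 2) => ‖w.2‖) (f q, q.2) :=
      (contDiffAt_norm ℝ hn).comp (f := fun w : ℂ × Eu (m + 2) => w.2) (f q, q.2) contDiffAt_snd
    have h2 : ContDiffAt ℝ r (fun w : ℂ × Eu (m + 2) => (1 / 2 - ‖w.2‖) / ‖w.2‖) (f q, q.2) :=
      (contDiffAt_const.sub hnorm).fun_div hnorm h.ne'
    exact h2.smul (contDiff_rot (r := r)).contDiffAt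
  exact ContMDiffAt.comp q (g := fun w : ℂ × Eu (m + 2) =>
      ((1 / 2 - ‖w.2‖) / ‖w.2‖) • rot w.1 w.2)
    (f := fun q : Circle × Eu (m + 2) => (f q, q.2)) h1.contMDiffAt
    (hf.prodMk_space contMDiffAt_snd)

theorem contMDiffAt_tw {r : ℕ∞ω} {q : Circle × Eu (m + 2)} (h : 0 < ‖q.2‖) :
    ContMDiffAt ((𝓡 1).prod (𝓡 (m + 2))) ((𝓡 1).prod (𝓡 (m + 2))) r
      (fun q : Circle × Eu (m + 2) => (q.1, tw q.1 q.2)) q := by
  apply contMDiffAt_fst.prodMk
  exact contMDiffAt_scal h ((contMDiff_coe_circle.comp contMDiff_fst).contMDiffAt)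

theorem contMDiffAt_twInv {r : ℕ∞ω} {q : Circle × Eu (m + 2)} (h : 0 < ‖q.2‖) :
    ContMDiffAt ((𝓡 1).prod (𝓡 (m + 2))) ((𝓡 1).prod (𝓡 (m + 2))) r
      (fun q : Circle × Eu (m + 2) => (q.1, twInv q.1 q.2)) q := by
  apply contMDiffAt_fst.prodMk
  apply contMDiffAt_scal h
  exact contMDiff_coe_circle.contMDiffAt.comp q contMDiffAt_fst.inv

/-- the twist -/
def twP (m : ℕ) : OpenPartialHomeomorph (Circle × Eu (m + 2)) (Circle × Eu (m + 2)) where
  toFun q := (q.1, tw q.1 q.2)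
  invFun q := (q.1, twInv q.1 q.2)
  source := neckSet m
  target := neckSet m
  map_source' q hq := by
    constructor
    · rw [norm_tw hq.1 hq.2]
      linarith [hq.1, hq.2]
    · rw [norm_tw hq.1 hq.2]
      linarith [hq.1, hq.2]
  map_target' q hq := by
    constructor
    · rw [norm_twInv hq.1 hq.2]
      linarith [hq.1, hq.2]
    · rw [norm_twInv hq.1 hq.2]
      linarith [hq.1, hq.2]
  left_inv' q hq := Prod.ext rfl (twInv_tw hq.1 hq.2 _)
  right_inv' q hq := Prod.ext rfl (tw_twInv hq.1 hq.2 _)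
  open_source := isOpen_neckSet
  open_target := isOpen_neckSet
  continuousOn_toFun q hq :=
    (contMDiffAt_tw (r := 0) hq.1).continuousAt.continuousWithinAt
  continuousOn_invFun q hq :=
    (contMDiffAt_twInv (r := 0) hq.1).continuousAt.continuousWithinAt

theorem contMDiffOn_twP {r : ℕ∞ω} (m : ℕ) :
    ContMDiffOn ((𝓡 1).prod (𝓡 (m + 2))) ((𝓡 1).prod (𝓡 (m + 2))) r (twP m) (twP m).source :=
  fun _ hq => (contMDiffAt_tw hq.1).contMDiffWithinAt

theorem contMDiffOn_twP_symm {r : ℕ∞ω} (m : ℕ) :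
    ContMDiffOn ((𝓡 1).prod (𝓡 (m + 2))) ((𝓡 1).prod (𝓡 (m + 2))) r (twP m).symm
      (twP m).target :=
  fun _ hq => (contMDiffAt_twInv hq.1).contMDiffWithinAt

theorem coe_neckMap (p m : ℕ) (hp : p = 2 ∨ p = 3) (q : Neck m) :
    ((neckMap p m hp q : Piece p m) : Circle × Sn (m + 2)) = tubeP p hp m q.1 := by
  change _ = tubeF p q.1
  rw [tubeF_eq p (by linarith [q.2.2])]
  rfl

theorem isOpenEmbedding_neckMap (p m : ℕ) (hp : p = 2 ∨ p = 3) :
    Topology.IsOpenEmbedding (neckMap p m hp) := by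
  apply Topology.IsOpenEmbedding.of_continuous_injective_isOpenMap (neckMap p m hp).continuous
  · intro q q' h
    have h1 := congrArg (Subtype.val : Piece p m → Circle × Sn (m + 2)) h
    rw [coe_neckMap, coe_neckMap] at h1
    exact Subtype.ext ((tubeP p hp m).injOn q.2.2 q'.2.2 h1)
  · intro U hU
    have h1 : IsOpen ((Subtype.val : Neck m → Circle × Eu (m + 2)) '' U) :=
      isOpen_neckSet.isOpenEmbedding_subtypeVal.isOpenMap U hU
    have h2 : IsOpen (tubeP p hp m '' ((Subtype.val : Neck m → Circle × Eu (m + 2)) '' U)) := by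
      apply (tubeP p hp m).isOpen_image_of_subset_source h1
      rintro _ ⟨q, _, rfl⟩
      exact q.2.2
    have h3 : neckMap p m hp '' U = (Subtype.val : Piece p m → Circle × Sn (m + 2)) ⁻¹'
        (tubeP p hp m '' ((Subtype.val : Neck m → Circle × Eu (m + 2)) '' U)) := by
      ext a
      constructor
      · rintro ⟨q, hq, rfl⟩
        exact ⟨q.1, ⟨q, hq, rfl⟩, (coe_neckMap p m hp q).symm⟩
      · rintro ⟨_, ⟨q, hq, rfl⟩, h⟩
        exact ⟨q, hq, Subtype.ext ((coe_neckMap p m hp q).trans h)⟩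
    rw [h3]
    exact h2.preimage continuous_subtype_val

end Pool.Agent.S1S3
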